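import Pool.Agent.Lib.MP_625f41_nt.Defs

open Polynomial Filter

namespace Pool.Agent.Lib.MP_625f41_nt

lemma natAbs_coeff_le_height (P : ℤ[X]) (i : ℕ) : (P.coeff i).natAbs ≤ height P := by
  classical
  by_cases h : i ∈ P.support
  · exact Finset.le_sup (f := fun i => (P.coeff i).natAbs) h
  · have : P.coeff i = 0 := by simpa using h
    simp [this]

lemma height_le_iff (P : ℤ[X]) (H : ℕ) : height P ≤ H ↔ ∀ i, (P.coeff i).natAbs ≤ H := by
  constructor
  · intro h i
    exact (natAbs_coeff_le_height P i).trans h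
  · intro h
    exact Finset.sup_le fun i _ => h i

/-- There are only finitely many integer polynomials of degree at most `n` and height at most
`H`. -/
lemma finite_height_le (n H : ℕ) : {P : ℤ[X] | P.natDegree ≤ n ∧ height P ≤ H}.Finite := by
  classical
  let f : ℤ[X] → (Fin (n + 1) → ℤ) := fun P i => P.coeff i
  have hfin : (Set.pi Set.univ (fun _ : Fin (n + 1) => Set.Icc (-(H : ℤ)) H)).Finite :=
    Set.Finite.pi fun _ => Set.finite_Icc _ _
  refine Set.Finite.of_finite_image (f := f) (hfin.subset ?_) ?_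
  · rintro _ ⟨P, ⟨_, hH⟩, rfl⟩
    intro i _
    have := (height_le_iff P H).1 hH i
    simp only [f, Set.mem_Icc]
    omega
  · intro P hP Q hQ hPQ
    ext i
    by_cases hi : i < n + 1
    · exact congrFun hPQ ⟨i, hi⟩
    · rw [coeff_eq_zero_of_natDegree_lt (by have := hP.1; omega),
        coeff_eq_zero_of_natDegree_lt (by have := hQ.1; omega)]

lemma sep_set_bddBelow (P : ℤ[X]) :
    BddBelow {d : ℝ | ∃ α β : ℂ, α ≠ β ∧ aeval α P = 0 ∧ aeval β P = 0 ∧ d = dist α β} :=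
  ⟨0, by rintro _ ⟨α, β, _, _, _, rfl⟩; exact dist_nonneg⟩

lemma sep_le_dist {P : ℤ[X]} {α β : ℂ} (h : α ≠ β) (hα : aeval α P = 0) (hβ : aeval β P = 0) :
    sep P ≤ dist α β :=
  csInf_le (sep_set_bddBelow P) ⟨α, β, h, hα, hβ, rfl⟩

lemma sep_pos {P : ℤ[X]} (hn : 2 ≤ P.natDegree) (hP : HasDistinctRoots P) : 0 < sep P := by
  classical
  have hP0 : P ≠ 0 := by rintro rfl; simp at hn
  have hmap : P.map (Int.castRingHom ℂ) ≠ 0 := by
    rw [Ne, Polynomial.map_eq_zero_iff (RingHom.injective_int _)]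
    exact hP0
  -- the set of roots is finite
  have hroot : ∀ α : ℂ, aeval α P = 0 → α ∈ (P.map (Int.castRingHom ℂ)).roots := by
    intro α hα
    rw [mem_roots hmap, IsRoot.def, eval_map]
    rw [aeval_def] at hα
    simpa using hα
  set S : Finset ℂ := (P.map (Int.castRingHom ℂ)).roots.toFinset with hS
  have hcard : S.card = P.natDegree := by
    rw [hS, Multiset.toFinset_card_of_nodup hP]
    exact IsAlgClosed.card_roots_map_eq_natDegree_of_injective P (RingHom.injective_int _)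
  set D := {d : ℝ | ∃ α β : ℂ, α ≠ β ∧ aeval α P = 0 ∧ aeval β P = 0 ∧ d = dist α β} with hD
  have hDfin : D.Finite := by
    refine ((S ×ˢ S).finite_toSet.image (fun p : ℂ × ℂ => dist p.1 p.2)).subset ?_
    rintro _ ⟨α, β, _, hα, hβ, rfl⟩
    exact ⟨(α, β), by
      simp only [Finset.coe_product, Set.mem_prod, Finset.mem_coe, hS, Multiset.mem_toFinset]
      exact ⟨hroot α hα, hroot β hβ⟩, rfl⟩
  have hDne : D.Nonempty := by
    have : 1 < S.card := by omega
    obtain ⟨α, hα, β, hβ, hne⟩ := Finset.one_lt_card.1 this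
    rw [hS, Multiset.mem_toFinset, mem_roots hmap, IsRoot.def, eval_map] at hα hβ
    refine ⟨dist α β, α, β, hne, ?_, ?_, rfl⟩
    · rw [aeval_def]; simpa using hα
    · rw [aeval_def]; simpa using hβ
  obtain ⟨α, β, hne, _, _, hd⟩ := hDne.csInf_mem hDfin
  have : sep P = dist α β := hd
  rw [this]
  exact dist_pos.2 hne

lemma minSep_set_finite (𝒞 : ℤ[X] → Prop) (n H : ℕ) :
    {d : ℝ | ∃ P : ℤ[X], P.natDegree = n ∧ height P ≤ H ∧ 𝒞 P ∧ d = sep P}.Finite := by
  refine ((finite_height_le n H).image sep).subset ?_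
  rintro _ ⟨P, hn, hH, _, rfl⟩
  exact ⟨P, ⟨hn.le, hH⟩, rfl⟩

lemma minSep_le_sep {𝒞 : ℤ[X] → Prop} {n H : ℕ} {P : ℤ[X]} (hn : P.natDegree = n)
    (hH : height P ≤ H) (hC : 𝒞 P) : minSep 𝒞 n H ≤ sep P :=
  csInf_le (minSep_set_finite 𝒞 n H).bddBelow ⟨P, hn, hH, hC, rfl⟩

lemma minSep_pos {𝒞 : ℤ[X] → Prop} (h𝒞 : ∀ P, 𝒞 P → HasDistinctRoots P) {n H : ℕ} (h2 : 2 ≤ n)
    {P : ℤ[X]} (hn : P.natDegree = n) (hH : height P ≤ H) (hC : 𝒞 P) : 0 < minSep 𝒞 n H := by
  have hne : {d : ℝ | ∃ P : ℤ[X], P.natDegree = n ∧ height P ≤ H ∧ 𝒞 P ∧ d = sep P}.Nonempty :=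
    ⟨sep P, P, hn, hH, hC, rfl⟩
  obtain ⟨Q, hQn, _, hQC, hd⟩ := hne.csInf_mem (minSep_set_finite 𝒞 n H)
  have : minSep 𝒞 n H = sep Q := hd
  rw [this]
  exact sep_pos (by omega) (h𝒞 Q hQC)

/-- The criterion used for all lower bounds: polynomials in the class `𝒞` with height at most
`H` and separation at most `K * H ^ (-e)`, for arbitrarily large `H`, give the exponent `e`. -/
theorem le_sepExponent {𝒞 : ℤ[X] → Prop} (h𝒞 : ∀ P, 𝒞 P → HasDistinctRoots P) {n : ℕ}
    (h2 : 2 ≤ n) (e K : ℝ)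
    (h : ∀ N : ℕ, ∃ H : ℕ, N ≤ H ∧ ∃ P : ℤ[X], P.natDegree = n ∧ height P ≤ H ∧ 𝒞 P ∧
      sep P ≤ K * (H : ℝ) ^ (-e)) :
    (e : EReal) ≤ sepExponent 𝒞 n := by
  refine le_of_forall_lt fun c hc => ?_
  -- pick a real number strictly between
  obtain ⟨c', hcc', hc'e⟩ := EReal.lt_iff_exists_real_btwn.1 hc
  have hc'e' : c' < e := by exact_mod_cast hc'e
  refine lt_of_lt_of_le hcc' ?_
  refine Filter.le_limsup_of_frequently_le ?_ (by isBoundedDefault)
  rw [Filter.frequently_atTop]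
  intro N
  -- K is positive
  have hKpos : 0 < K := by
    obtain ⟨H, hH, P, hPn, hPH, hPC, hsep⟩ := h 1
    have h1 := sep_pos (P := P) (by omega) (h𝒞 P hPC)
    have hHpos : (0 : ℝ) < (H : ℝ) ^ (-e) := Real.rpow_pos_of_pos (by exact_mod_cast hH) _
    by_contra hK
    push Not at hK
    have : K * (H : ℝ) ^ (-e) ≤ 0 := mul_nonpos_of_nonpos_of_nonneg hK hHpos.le
    linarith
  -- choose the size
  obtain ⟨M, hM⟩ := exists_nat_gt (Real.exp (Real.log K / (e - c')) + 2)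
  obtain ⟨H, hH, P, hPn, hPH, hPC, hsep⟩ := h (max N M)
  refine ⟨H, (le_max_left N M).trans hH, ?_⟩
  have hHM : (M : ℝ) ≤ H := by exact_mod_cast (le_max_right N M).trans hH
  have hH1 : (1 : ℝ) < H := by
    have := Real.exp_pos (Real.log K / (e - c'))
    linarith
  have hlogH : 0 < Real.log H := Real.log_pos hH1
  have hHpos : (0 : ℝ) < H := by linarith
  have hLpos : 0 < minSep 𝒞 n H := minSep_pos h𝒞 h2 hPn hPH hPC
  have hLle : minSep 𝒞 n H ≤ K * (H : ℝ) ^ (-e) := (minSep_le_sep hPn hPH hPC).trans hsep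
  have hlog : Real.log (minSep 𝒞 n H) ≤ Real.log K - e * Real.log H := by
    have := Real.log_le_log hLpos hLle
    rw [Real.log_mul hKpos.ne' (Real.rpow_pos_of_pos hHpos _).ne', Real.log_rpow hHpos] at this
    linarith
  have hlogK : Real.log K ≤ (e - c') * Real.log H := by
    have h1 : Real.exp (Real.log K / (e - c')) ≤ H := by linarith
    have h2 : Real.log K / (e - c') ≤ Real.log H := by
      rw [Real.le_log_iff_exp_le hHpos]
      exact h1
    have h3 : 0 < e - c' := by linarith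
    rw [div_le_iff₀ h3] at h2
    linarith
  have : c' ≤ -Real.log (minSep 𝒞 n H) / Real.log H := by
    rw [le_div_iff₀ hlogH]
    nlinarith
  exact_mod_cast this

end Pool.Agent.Lib.MP_625f41_nt
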