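import Mathlib

/-!
# The cubic cover `x = U(z) / V(z)`, `U = z^3 - z^2 - 6 z - 2`, `V = z + 2`

Homogenisations `hom N a = sum_i a_i U^i V^(N-i)` and `RR N a b = hom N a + z hom N b`.
-/

open Polynomial

namespace Pool.Agent.Lib.MP_625f41_nt

namespace Cusp

section generic

variable {B : Type*} [CommRing B]

/-- `U = z^3 - z^2 - 6 z - 2` -/
noncomputable def U (B : Type*) [CommRing B] : B[X] := X ^ 3 - X ^ 2 - 6 * X - 2

/-- `V = z + 2` -/
noncomputable def V (B : Type*) [CommRing B] : B[X] := X + 2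

/-- homogenisation of `a` in degree `N`, evaluated at `(U, V)` -/
noncomputable def hom (N : ℕ) (a : B[X]) : B[X] :=
  ∑ i ∈ Finset.range (N + 1), C (a.coeff i) * (U B ^ i * V B ^ (N - i))

/-- the polynomial `R = hom a + z hom b` -/
noncomputable def RR (N : ℕ) (a b : B[X]) : B[X] := hom N a + X * hom N b

lemma eval_U (z : B) : (U B).eval z = z ^ 3 - z ^ 2 - 6 * z - 2 := by
  simp [U]

lemma eval_V (z : B) : (V B).eval z = z + 2 := by
  simp [V]

lemma map_U {B' : Type*} [CommRing B'] (φ : B →+* B') : (U B).map φ = U B' := by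
  simp [U]

lemma map_V {B' : Type*} [CommRing B'] (φ : B →+* B') : (V B).map φ = V B' := by
  simp [V]

lemma map_hom {B' : Type*} [CommRing B'] (φ : B →+* B') (N : ℕ) (a : B[X]) :
    (hom N a).map φ = hom N (a.map φ) := by
  simp only [hom, Polynomial.map_sum, Polynomial.map_mul, map_C, Polynomial.map_pow, map_U, map_V,
    coeff_map]

lemma map_RR {B' : Type*} [CommRing B'] (φ : B →+* B') (N : ℕ) (a b : B[X]) :
    (RR N a b).map φ = RR N (a.map φ) (b.map φ) := by
  simp only [RR, Polynomial.map_add, Polynomial.map_mul, map_X, map_hom]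

lemma hom_zero (N : ℕ) : hom N (0 : B[X]) = 0 := by
  simp [hom]

lemma hom_add (N : ℕ) (a b : B[X]) : hom N (a + b) = hom N a + hom N b := by
  unfold hom
  rw [← Finset.sum_add_distrib]
  refine Finset.sum_congr rfl fun i _ => ?_
  rw [coeff_add, C_add, add_mul]

lemma hom_sub (N : ℕ) (a b : B[X]) : hom N (a - b) = hom N a - hom N b := by
  unfold hom
  rw [← Finset.sum_sub_distrib]
  refine Finset.sum_congr rfl fun i _ => ?_
  rw [coeff_sub, C_sub, sub_mul]

lemma hom_C_mul (N : ℕ) (c : B) (a : B[X]) : hom N (C c * a) = C c * hom N a := by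
  unfold hom
  rw [Finset.mul_sum]
  refine Finset.sum_congr rfl fun i _ => ?_
  rw [coeff_C_mul, C_mul, mul_assoc]

lemma hom_sum {ι : Type*} (N : ℕ) (s : Finset ι) (f : ι → B[X]) :
    hom N (∑ i ∈ s, f i) = ∑ i ∈ s, hom N (f i) := by
  classical
  induction s using Finset.induction_on with
  | empty => simp [hom_zero]
  | insert i s hi ih => rw [Finset.sum_insert hi, Finset.sum_insert hi, hom_add, ih]

lemma hom_X_pow {N i : ℕ} (hi : i ≤ N) : hom N (X ^ i : B[X]) = U B ^ i * V B ^ (N - i) := by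
  unfold hom
  rw [Finset.sum_eq_single_of_mem i (Finset.mem_range.2 (by omega))]
  · rw [coeff_X_pow_self, C_1, one_mul]
  · intro j _ hj
    rw [coeff_X_pow, if_neg hj, C_0, zero_mul]

lemma eq_sum {N : ℕ} {a : B[X]} (ha : a.natDegree ≤ N) :
    a = ∑ i ∈ Finset.range (N + 1), C (a.coeff i) * X ^ i := by
  exact as_sum_range_C_mul_X_pow' _ (Nat.lt_succ_of_le ha)

lemma hom_mul {N M : ℕ} {a b : B[X]} (ha : a.natDegree ≤ N) (hb : b.natDegree ≤ M) :
    hom N a * hom M b = hom (N + M) (a * b) := by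
  have h1 : a * b = ∑ i ∈ Finset.range (N + 1), ∑ j ∈ Finset.range (M + 1),
      C (a.coeff i * b.coeff j) * X ^ (i + j) := by
    conv_lhs => rw [eq_sum ha, eq_sum hb, Finset.sum_mul_sum]
    refine Finset.sum_congr rfl fun i _ => Finset.sum_congr rfl fun j _ => ?_
    rw [C_mul, pow_add]
    ring
  rw [h1, hom_sum]
  simp only [hom_sum, hom_C_mul]
  conv_lhs => rw [hom, hom, Finset.sum_mul_sum]
  refine Finset.sum_congr rfl fun i hi => Finset.sum_congr rfl fun j hj => ?_
  have hi' : i ≤ N := by simpa [Nat.lt_succ_iff] using hi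
  have hj' : j ≤ M := by simpa [Nat.lt_succ_iff] using hj
  rw [hom_X_pow (by omega), C_mul, pow_add, show N + M - (i + j) = (N - i) + (M - j) by omega,
    pow_add]
  ring

lemma hom_X_mul (N : ℕ) (a : B[X]) : hom (N + 1) (X * a) = U B * hom N a := by
  unfold hom
  rw [Finset.sum_range_succ', Finset.mul_sum]
  simp only [mul_comm X a, coeff_mul_X, mul_coeff_zero, coeff_X_zero, mul_zero, C_0, zero_mul,
    add_zero]
  refine Finset.sum_congr rfl fun i _ => ?_
  rw [Nat.add_sub_add_right, pow_succ]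
  ring

lemma hom_succ {N : ℕ} {a : B[X]} (ha : a.natDegree ≤ N) : hom (N + 1) a = V B * hom N a := by
  unfold hom
  rw [Finset.sum_range_succ, coeff_eq_zero_of_natDegree_lt (by omega : a.natDegree < N + 1), C_0,
    zero_mul, add_zero, Finset.mul_sum]
  refine Finset.sum_congr rfl fun i hi => ?_
  have hi' : i ≤ N := by simpa [Nat.lt_succ_iff] using hi
  rw [show N + 1 - i = (N - i) + 1 by omega, pow_succ]
  ring

lemma hom_X_sub_C_mul {N : ℕ} (c : B) {a : B[X]} (ha : a.natDegree ≤ N) :
    hom (N + 1) ((X - C c) * a) = (U B - C c * V B) * hom N a := by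
  rw [sub_mul, hom_sub, hom_X_mul, hom_C_mul, hom_succ ha]
  ring

lemma RR_X_sub_C_mul {N : ℕ} (c : B) {a b : B[X]} (ha : a.natDegree ≤ N) (hb : b.natDegree ≤ N) :
    RR (N + 1) ((X - C c) * a) ((X - C c) * b) = (U B - C c * V B) * RR N a b := by
  unfold RR
  rw [hom_X_sub_C_mul c ha, hom_X_sub_C_mul c hb]
  ring

/-- evaluation of the homogenisation at a point above `x` -/
lemma eval_hom {N : ℕ} {a : B[X]} (ha : a.natDegree ≤ N) {z x : B}
    (hx : (U B).eval z = x * (V B).eval z) :
    (hom N a).eval z = (V B).eval z ^ N * a.eval x := by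
  rw [eval_eq_sum_range' (Nat.lt_succ_of_le ha), Finset.mul_sum, hom, eval_finsetSum]
  refine Finset.sum_congr rfl fun i hi => ?_
  have hi' : i ≤ N := by simpa [Nat.lt_succ_iff] using hi
  rw [eval_mul, eval_mul, eval_C, eval_pow, eval_pow, hx]
  have : (V B).eval z ^ N = (V B).eval z ^ i * (V B).eval z ^ (N - i) := by
    rw [← pow_add]; congr 1; omega
  rw [this]
  ring

lemma eval_RR {N : ℕ} {a b : B[X]} (ha : a.natDegree ≤ N) (hb : b.natDegree ≤ N) {z x : B}
    (hx : (U B).eval z = x * (V B).eval z) :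
    (RR N a b).eval z = (V B).eval z ^ N * (a.eval x + z * b.eval x) := by
  rw [RR, eval_add, eval_mul, eval_X, eval_hom ha hx, eval_hom hb hx]
  ring

/-- evaluation of the homogenisation at the pole `z = -2` -/
lemma eval_hom_pole (N : ℕ) (a : B[X]) : (hom N a).eval (-2) = (-2) ^ N * a.coeff N := by
  rw [hom, eval_finsetSum, Finset.sum_eq_single_of_mem N (Finset.mem_range.2 (by omega))]
  · rw [eval_mul, eval_mul, eval_C, eval_pow, eval_pow, eval_U, Nat.sub_self, pow_zero, mul_one,
      mul_comm]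
    congr 2
    ring
  · intro i hi hiN
    have hi' : i < N := by
      have : i ≤ N := by simpa [Nat.lt_succ_iff] using hi
      omega
    rw [eval_mul, eval_mul, eval_pow, eval_pow, eval_V, neg_add_cancel, zero_pow (by omega),
      mul_zero, mul_zero]

lemma eval_RR_pole (N : ℕ) (a b : B[X]) :
    (RR N a b).eval (-2) = (-2) ^ N * (a.coeff N - 2 * b.coeff N) := by
  rw [RR, eval_add, eval_mul, eval_X, eval_hom_pole, eval_hom_pole]
  ring

lemma natDegree_U : (U B).natDegree ≤ 3 := by
  unfold U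
  compute_degree

lemma natDegree_V : (V B).natDegree ≤ 1 := by
  unfold V
  compute_degree

lemma natDegree_term {N i : ℕ} (hi : i ≤ N) (c : B) :
    (C c * (U B ^ i * V B ^ (N - i))).natDegree ≤ N + 2 * i := by
  refine (natDegree_C_mul_le _ _).trans ?_
  refine natDegree_mul_le.trans ?_
  have h1 : (U B ^ i).natDegree ≤ i * 3 := natDegree_pow_le_of_le i natDegree_U
  have h2 : (V B ^ (N - i)).natDegree ≤ (N - i) * 1 := natDegree_pow_le_of_le _ natDegree_V
  omega

lemma natDegree_hom (N : ℕ) (a : B[X]) : (hom N a).natDegree ≤ 3 * N := by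
  unfold hom
  refine natDegree_sum_le_of_forall_le _ _ fun i hi => ?_
  have hi' : i ≤ N := by simpa [Nat.lt_succ_iff] using hi
  exact (natDegree_term hi' _).trans (by omega)

lemma coeff_U_three : (U B).coeff 3 = 1 := by
  have : U B = X ^ 3 - X ^ 2 - C 6 * X - C 2 := by
    unfold U
    simp only [map_ofNat]
  rw [this]
  simp

lemma coeff_hom_top (N : ℕ) (a : B[X]) : (hom N a).coeff (3 * N) = a.coeff N := by
  unfold hom
  rw [finsetSum_coeff, Finset.sum_range_succ, Finset.sum_eq_zero, zero_add, Nat.sub_self, pow_zero,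
    mul_one, coeff_C_mul]
  · have hU : (U B ^ N).coeff (3 * N) = 1 := by
      have := coeff_pow_of_natDegree_le (n := 3) (m := N) (natDegree_U (B := B))
      rw [mul_comm 3 N, this, coeff_U_three, one_pow]
    rw [hU, mul_one]
  · intro i hi
    have hi' : i < N := Finset.mem_range.1 hi
    exact coeff_eq_zero_of_natDegree_lt ((natDegree_term hi'.le _).trans_lt (by omega))

lemma natDegree_RR (N : ℕ) (a b : B[X]) : (RR N a b).natDegree ≤ 3 * N + 1 := by
  unfold RR
  refine (natDegree_add_le _ _).trans (max_le ?_ ?_)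
  · exact (natDegree_hom N a).trans (by omega)
  · refine natDegree_mul_le.trans ?_
    have := natDegree_hom N b
    have := natDegree_X_le (R := B)
    omega

lemma coeff_RR_top (N : ℕ) (a b : B[X]) : (RR N a b).coeff (3 * N + 1) = b.coeff N := by
  unfold RR
  rw [coeff_add, coeff_eq_zero_of_natDegree_lt ((natDegree_hom N a).trans_lt (by omega)),
    zero_add, coeff_X_mul, coeff_hom_top]

lemma RR_add (N : ℕ) (a b a' b' : B[X]) :
    RR N (a + a') (b + b') = RR N a b + RR N a' b' := by
  unfold RR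
  rw [hom_add, hom_add]
  ring

lemma RR_C_mul (N : ℕ) (c : B) (a b : B[X]) : RR N (C c * a) (C c * b) = C c * RR N a b := by
  unfold RR
  rw [hom_C_mul, hom_C_mul]
  ring

end generic

end Cusp

end Pool.Agent.Lib.MP_625f41_nt
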