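import Pool.Agent.Lib.MP_625f41_nt.CuspA

/-!
# The nonsingularity lemma

Over `A = ℤ[√2]`: if `deg a, deg b ≤ N`, and a monic polynomial `Ω` of degree `2 N + 2` whose
constant coefficient is not divisible by `√2` divides `RR N a b`, then `a = b = 0`.
-/

open Polynomial

namespace Pool.Agent.Lib.MP_625f41_nt

namespace Cusp

section modTwo

lemma two_eq_zero' : (2 : (ZMod 2)[X]) = 0 := CharTwo.two_eq_zero

lemma U_mod_two : U (ZMod 2) = X * (X ^ 2 + X) := by
  have h2 := two_eq_zero'
  unfold U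
  linear_combination (-(X ^ 2) - 3 * X - 1 : (ZMod 2)[X]) * h2

lemma V_mod_two : V (ZMod 2) = X := by
  have h2 := two_eq_zero'
  unfold V
  linear_combination h2

lemma hom_mod_two {N : ℕ} {a : (ZMod 2)[X]} (ha : a.natDegree ≤ N) :
    hom N a = X ^ N * a.comp (X ^ 2 + X) := by
  rw [comp, eval₂_eq_sum_range' C (Nat.lt_succ_of_le ha), Finset.mul_sum, hom]
  refine Finset.sum_congr rfl fun i hi => ?_
  have hi' : i ≤ N := by simpa [Nat.lt_succ_iff] using hi
  rw [U_mod_two, V_mod_two, mul_pow]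
  have : (X : (ZMod 2)[X]) ^ N = X ^ i * X ^ (N - i) := by rw [← pow_add]; congr 1; omega
  rw [this]
  ring

lemma natDegree_Y : (X ^ 2 + X : (ZMod 2)[X]).natDegree = 2 := by
  compute_degree!

lemma mod_two {N : ℕ} {a b : (ZMod 2)[X]} (ha : a.natDegree ≤ N) (hb : b.natDegree ≤ N)
    {Ω : (ZMod 2)[X]} (hd : Ω.natDegree = 2 * N + 2) (h0 : Ω.coeff 0 ≠ 0)
    (h : Ω ∣ RR N a b) : a = 0 ∧ b = 0 := by
  set Y : (ZMod 2)[X] := X ^ 2 + X with hY
  have h2 := two_eq_zero'
  have hRR : RR N a b = X ^ N * (a.comp Y + X * b.comp Y) := by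
    rw [RR, hom_mod_two ha, hom_mod_two hb]
    ring
  have hcop : IsCoprime Ω (X ^ N) := by
    refine (IsCoprime.pow_left ?_).symm
    rw [irreducible_X.coprime_iff_not_dvd, X_dvd_iff]
    exact h0
  rw [hRR] at h
  have hdvd : Ω ∣ a.comp Y + X * b.comp Y := hcop.dvd_of_dvd_mul_left h
  have hG : a.comp Y + X * b.comp Y = 0 := by
    refine eq_zero_of_dvd_of_natDegree_lt hdvd ?_
    rw [hd]
    refine lt_of_le_of_lt (natDegree_add_le _ _) (max_lt ?_ ?_)
    · rw [natDegree_comp, hY, natDegree_Y]; omega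
    · refine lt_of_le_of_lt natDegree_mul_le ?_
      rw [natDegree_comp, hY, natDegree_Y, natDegree_X]; omega
  have hYc : Y.comp (X + 1) = Y := by
    rw [hY, add_comp, pow_comp, X_comp]
    linear_combination (X + 1 : (ZMod 2)[X]) * h2
  have hG' : a.comp Y + (X + 1) * b.comp Y = 0 := by
    have := congrArg (fun p : (ZMod 2)[X] => p.comp (X + 1)) hG
    simp only [add_comp, mul_comp, X_comp, comp_assoc, hYc, zero_comp] at this
    exact this
  have hb0 : b.comp Y = 0 := by linear_combination hG' - hG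
  have ha0 : a.comp Y = 0 := by rw [hb0, mul_zero, add_zero] at hG; exact hG
  have hYne : Y.natDegree ≠ 0 := by rw [hY, natDegree_Y]; norm_num
  constructor
  · rcases comp_eq_zero_iff.1 ha0 with h | ⟨_, h⟩
    · exact h
    · exact absurd (by rw [h, natDegree_C]) hYne
  · rcases comp_eq_zero_iff.1 hb0 with h | ⟨_, h⟩
    · exact h
    · exact absurd (by rw [h, natDegree_C]) hYne

end modTwo

/-- the ring `ℤ[√2]` -/
abbrev A : Type := ℤ√2

/-- the element `√2` -/
abbrev s : A := Zsqrtd.sqrtd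

lemma s_mul_s : s * s = 2 := by
  ext <;> simp

lemma norm_ne_zero {x : A} (hx : x ≠ 0) : x.norm ≠ 0 := by
  intro h
  apply hx
  refine (Zsqrtd.norm_eq_zero (d := 2) ?_ x).1 h
  intro n hn
  have h1 : n ≤ 1 := by nlinarith
  have h2 : -1 ≤ n := by nlinarith
  interval_cases n <;> omega

instance : NoZeroDivisors A where
  eq_zero_or_eq_zero_of_mul_eq_zero := by
    intro x y hxy
    by_contra hcon
    push Not at hcon
    have h1 := norm_ne_zero hcon.1
    have h2 := norm_ne_zero hcon.2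
    have := Zsqrtd.norm_mul x y
    rw [hxy, Zsqrtd.norm_zero] at this
    exact (mul_ne_zero h1 h2) this.symm

instance : IsDomain A := NoZeroDivisors.to_isDomain A

lemma s_ne_zero : s ≠ 0 := by
  intro h
  have := congrArg Zsqrtd.im h
  simp at this

/-- reduction modulo `√2` -/
noncomputable def red : A →+* ZMod 2 := Zsqrtd.lift ⟨0, by decide⟩

lemma red_apply (x : A) : red x = (x.re : ZMod 2) := by
  simp [red, Zsqrtd.lift]

lemma s_dvd_of_red {x : A} (h : red x = 0) : s ∣ x := by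
  rw [red_apply, ZMod.intCast_zmod_eq_zero_iff_dvd] at h
  obtain ⟨k, hk⟩ := h
  refine ⟨⟨x.im, k⟩, ?_⟩
  ext
  · simp [hk]
  · simp

lemma eq_zero_of_pow_dvd {x : A} (h : ∀ j : ℕ, s ^ j ∣ x) : x = 0 := by
  by_contra hx
  have h1 : x.norm.natAbs ≠ 0 := by
    rw [Ne, Int.natAbs_eq_zero]
    exact norm_ne_zero hx
  obtain ⟨y, hy⟩ := h (x.norm.natAbs + 1)
  have h2 : x.norm = (s.norm) ^ (x.norm.natAbs + 1) * y.norm := by
    conv_lhs => rw [hy]
    rw [Zsqrtd.norm_mul]
    congr 1
    exact map_pow Zsqrtd.normMonoidHom _ _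
  have hs : s.norm = -2 := by simp [Zsqrtd.norm]
  rw [hs] at h2
  have h3 : (2 : ℕ) ^ (x.norm.natAbs + 1) ∣ x.norm.natAbs := by
    have := congrArg Int.natAbs h2
    rw [Int.natAbs_mul, Int.natAbs_pow] at this
    exact ⟨_, this⟩
  have h4 := Nat.le_of_dvd (Nat.pos_of_ne_zero h1) h3
  have h5 : x.norm.natAbs + 1 < 2 ^ (x.norm.natAbs + 1) := Nat.lt_two_pow_self
  omega

lemma dvd_of_dvd_C_mul {c : A} (hc : c ≠ 0) {Ω F : A[X]} (hΩ : Ω.Monic) (h : Ω ∣ C c * F) :
    Ω ∣ F := by
  rw [← modByMonic_eq_zero_iff_dvd hΩ] at h ⊢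
  rw [← smul_eq_C_mul, smul_modByMonic, smul_eq_C_mul] at h
  rcases mul_eq_zero.1 h with h | h
  · exact absurd (C_eq_zero.1 h) hc
  · exact h

/-- **Nonsingularity lemma.** -/
theorem nonsing {N : ℕ} {a b : A[X]} (ha : a.natDegree ≤ N) (hb : b.natDegree ≤ N)
    {Ω : A[X]} (hΩ : Ω.Monic) (hd : Ω.natDegree = 2 * N + 2) (h0 : red (Ω.coeff 0) ≠ 0)
    (h : Ω ∣ RR N a b) : a = 0 ∧ b = 0 := by
  have key : ∀ j : ℕ, ∀ a b : A[X], a.natDegree ≤ N → b.natDegree ≤ N → Ω ∣ RR N a b →
      C (s ^ j) ∣ a ∧ C (s ^ j) ∣ b := by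
    intro j
    induction j with
    | zero => intro a b _ _ _; simp
    | succ j ih =>
      intro a b ha hb h
      have hmap : Ω.map red ∣ RR N (a.map red) (b.map red) := by
        rw [← map_RR]
        exact Polynomial.map_dvd red h
      obtain ⟨ha0, hb0⟩ := mod_two (natDegree_map_le.trans ha) (natDegree_map_le.trans hb)
        (Ω := Ω.map red) (by rw [hΩ.natDegree_map, hd]) (by rw [coeff_map]; exact h0) hmap
      have hdiv : ∀ p : A[X], p.map red = 0 → C s ∣ p := by
        intro p hp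
        rw [C_dvd_iff_dvd_coeff]
        intro i
        apply s_dvd_of_red
        have := congrArg (fun q => q.coeff i) hp
        simpa using this
      obtain ⟨a', rfl⟩ := hdiv a ha0
      obtain ⟨b', rfl⟩ := hdiv b hb0
      rw [RR_C_mul] at h
      have h' := dvd_of_dvd_C_mul s_ne_zero hΩ h
      rw [natDegree_C_mul s_ne_zero] at ha hb
      obtain ⟨h1, h2⟩ := ih a' b' ha hb h'
      rw [pow_succ', C_mul]
      exact ⟨mul_dvd_mul_left _ h1, mul_dvd_mul_left _ h2⟩
  constructor
  · ext1 i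
    rw [coeff_zero]
    apply eq_zero_of_pow_dvd
    intro j
    exact (C_dvd_iff_dvd_coeff _ _).1 (key j a b ha hb h).1 i
  · ext1 i
    rw [coeff_zero]
    apply eq_zero_of_pow_dvd
    intro j
    exact (C_dvd_iff_dvd_coeff _ _).1 (key j a b ha hb h).2 i

/-- **Existence.** -/
theorem exists_sol {N : ℕ} {Ω : A[X]} (hΩ : Ω.Monic) (hd : Ω.natDegree = 2 * N + 1) :
    ∃ a b : A[X], a.natDegree ≤ N ∧ b.natDegree ≤ N ∧ ¬(a = 0 ∧ b = 0) ∧ Ω ∣ RR N a b := by
  classical
  let P : (Fin (N + 1) → A) → A[X] := fun v => ∑ i : Fin (N + 1), C (v i) * X ^ (i : ℕ)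
  have hPadd : ∀ v w, P (v + w) = P v + P w := by
    intro v w
    simp only [P, Pi.add_apply, C_add, add_mul, Finset.sum_add_distrib]
  have hPsmul : ∀ (c : A) v, P (c • v) = C c * P v := by
    intro c v
    simp only [P, Pi.smul_apply, smul_eq_mul, C_mul, Finset.mul_sum, mul_assoc]
  let f : (Fin (N + 1) ⊕ Fin (N + 1) → A) →ₗ[A] (Fin (2 * N + 1) → A) :=
    { toFun := fun v i => ((RR N (P (fun i => v (Sum.inl i))) (P (fun i => v (Sum.inr i)))) %ₘ
        Ω).coeff i
      map_add' := by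
        intro v w
        ext1 i
        have h1 : P (fun i => (v + w) (Sum.inl i)) = P (fun i => v (Sum.inl i)) +
          P (fun i => w (Sum.inl i)) := hPadd _ _
        have h2 : P (fun i => (v + w) (Sum.inr i)) = P (fun i => v (Sum.inr i)) +
          P (fun i => w (Sum.inr i)) := hPadd _ _
        rw [h1, h2, RR_add, add_modByMonic, coeff_add]
        rfl
      map_smul' := by
        intro c v
        ext1 i
        have h1 : P (fun i => (c • v) (Sum.inl i)) = C c * P (fun i => v (Sum.inl i)) :=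
          hPsmul _ _
        have h2 : P (fun i => (c • v) (Sum.inr i)) = C c * P (fun i => v (Sum.inr i)) :=
          hPsmul _ _
        rw [h1, h2, RR_C_mul, ← smul_eq_C_mul, smul_modByMonic, coeff_smul]
        rfl }
  have hninj : ¬ Function.Injective f := by
    intro hinj
    have := card_le_of_injective A f hinj
    simp only [Fintype.card_sum, Fintype.card_fin] at this
    omega
  have : ∃ v, f v = 0 ∧ v ≠ 0 := by
    by_contra hcon
    push Not at hcon
    apply hninj
    rw [← LinearMap.ker_eq_bot, LinearMap.ker_eq_bot']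
    exact hcon
  obtain ⟨v, hv, hv0⟩ := this
  have hdeg : ∀ w : Fin (N + 1) → A, (P w).natDegree ≤ N := by
    intro w
    refine natDegree_sum_le_of_forall_le _ _ fun i _ => ?_
    exact (natDegree_C_mul_X_pow_le _ _).trans (by omega)
  have hcoeff : ∀ (w : Fin (N + 1) → A) (i : Fin (N + 1)), (P w).coeff i = w i := by
    intro w i
    simp only [P, finsetSum_coeff, coeff_C_mul, coeff_X_pow]
    rw [Finset.sum_eq_single i]
    · simp
    · intro j _ hj
      rw [if_neg (fun h => hj (Fin.ext h.symm)), mul_zero]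
    · simp
  refine ⟨P (fun i => v (Sum.inl i)), P (fun i => v (Sum.inr i)), hdeg _, hdeg _, ?_, ?_⟩
  · rintro ⟨h1, h2⟩
    apply hv0
    ext1 i
    rcases i with i | i
    · have := hcoeff (fun i => v (Sum.inl i)) i
      rw [h1, coeff_zero] at this
      exact this.symm
    · have := hcoeff (fun i => v (Sum.inr i)) i
      rw [h2, coeff_zero] at this
      exact this.symm
  · rw [← modByMonic_eq_zero_iff_dvd hΩ]
    ext1 i
    rw [coeff_zero]
    by_cases hi : i < 2 * N + 1
    · exact congrFun hv ⟨i, hi⟩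
    · apply coeff_eq_zero_of_natDegree_lt
      have hne : Ω ≠ 1 := by
        intro h
        rw [h, natDegree_one] at hd
        omega
      exact lt_of_lt_of_le (natDegree_modByMonic_lt _ hΩ hne) (by omega)

end Cusp

end Pool.Agent.Lib.MP_625f41_nt
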