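import Pool.Agent.Lib.MP_625f41_nt.CuspB

/-!
# Algebraic data attached to two conjugate cusps

We construct `a, b, H` over `A = ℤ[√2]` with
`RR N a b = (z - ζ)^N (z - ζ')^(N+1) H`, `ζ = 1 - 2√2`, `ζ' = 1 + 2√2`,
and prove the nondegeneracy statements needed later.
-/

open Polynomial

namespace Pool.Agent.Lib.MP_625f41_nt

namespace Cusp

/-- `ζ = 1 - 2 √2` -/
def zt : A := ⟨1, -2⟩

/-- `ζ' = 1 + 2 √2` -/
def zt' : A := ⟨1, 2⟩

/-- conjugation of `ℤ[√2]` -/
def cj : A →+* A := starRingEnd A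

lemma cj_apply (x : A) : cj x = star x := rfl

@[simp] lemma cj_re (x : A) : (cj x).re = x.re := rfl
@[simp] lemma cj_im (x : A) : (cj x).im = -x.im := rfl

lemma cj_cj (x : A) : cj (cj x) = x := by
  ext <;> simp

lemma cj_s : cj s = -s := by
  ext <;> simp

lemma cj_zt : cj zt = zt' := by
  ext <;> simp [zt, zt']

lemma cj_zt' : cj zt' = zt := by
  ext <;> simp [zt, zt']

lemma cj_injective : Function.Injective cj := Function.LeftInverse.injective cj_cj

lemma zt_eq : zt = 1 - 2 * s := by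
  ext <;> simp [zt]

lemma zt'_eq : zt' = 1 + 2 * s := by
  ext <;> simp [zt']

lemma C_s_sq : (C s : A[X]) * C s = 2 := by
  rw [← C_mul, s_mul_s]
  rfl

lemma fact1 : U A - C (-(2 * s)) * V A = (X - C s) ^ 2 * (X - C zt) := by
  have h := C_s_sq
  rw [zt_eq]
  simp only [C_neg, C_mul, C_sub, C_1, map_ofNat, U, V]
  linear_combination (-(-3 * X - 1 + 2 * C s) : A[X]) * h

lemma fact2 : U A - C (2 * s) * V A = (X - C (-s)) ^ 2 * (X - C zt') := by
  have h := C_s_sq
  rw [zt'_eq]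
  simp only [C_neg, C_mul, C_add, C_1, map_ofNat, U, V]
  linear_combination (-(-3 * X - 1 - 2 * C s) : A[X]) * h

lemma ne1 : zt ≠ s := by decide
lemma ne2 : zt' ≠ s := by decide
lemma ne3 : zt ≠ -s := by decide
lemma ne4 : zt' ≠ -s := by decide
lemma ne5 : zt ≠ zt' := by decide
lemma ne6 : (-(2 * s) : A) ≠ 2 * s := by decide

/-- cancelling a coprime linear power -/
lemma pow_dvd_cancel {r c : A} (hrc : r ≠ c) {i k : ℕ} {F : A[X]}
    (h : (X - C r) ^ i ∣ (X - C c) ^ k * F) : (X - C r) ^ i ∣ F := by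
  refine (prime_X_sub_C r).pow_dvd_of_dvd_mul_left i ?_ h
  intro h1
  have h2 := (prime_X_sub_C r).dvd_of_dvd_pow h1
  rw [dvd_iff_isRoot, IsRoot.def, eval_sub, eval_X, eval_C, sub_eq_zero] at h2
  exact hrc h2

lemma mul_pow_dvd {r c : A} (hrc : r ≠ c) {i j : ℕ} {F : A[X]} (h1 : (X - C r) ^ i ∣ F)
    (h2 : (X - C c) ^ j ∣ F) : (X - C r) ^ i * (X - C c) ^ j ∣ F := by
  obtain ⟨G, rfl⟩ := h1
  exact mul_dvd_mul_left _ (pow_dvd_cancel hrc.symm h2)

lemma nonsing' {N : ℕ} {a b : A[X]} (ha : a.natDegree ≤ N) (hb : b.natDegree ≤ N)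
    {i j : ℕ} (hij : i + j = 2 * N + 2) (h1 : (X - C zt) ^ i ∣ RR N a b)
    (h2 : (X - C zt') ^ j ∣ RR N a b) : a = 0 ∧ b = 0 := by
  have m1 : ((X - C zt : A[X]) ^ i).Monic := (monic_X_sub_C _).pow _
  have m2 : ((X - C zt' : A[X]) ^ j).Monic := (monic_X_sub_C _).pow _
  refine nonsing ha hb (m1.mul m2) ?_ ?_ (mul_pow_dvd ne5 h1 h2)
  · rw [m1.natDegree_mul m2, natDegree_pow, natDegree_pow, natDegree_X_sub_C, natDegree_X_sub_C]
    omega
  · rw [coeff_zero_eq_eval_zero, eval_mul, eval_pow, eval_pow, eval_sub, eval_sub, eval_X, eval_C,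
      eval_C, map_mul, map_pow, map_pow]
    have e1 : red (0 - zt) = 1 := by rw [red_apply]; decide
    have e2 : red (0 - zt') = 1 := by rw [red_apply]; decide
    rw [e1, e2, one_pow, one_pow]
    decide

/-- factorisation lemma: both polynomials vanish at `c` -/
lemma factor_both {N : ℕ} {a b : A[X]} (ha : a.natDegree ≤ N + 1) (hb : b.natDegree ≤ N + 1)
    {c : A} (hac : a.eval c = 0) (hbc : b.eval c = 0) :
    ∃ a' b' : A[X], a'.natDegree ≤ N ∧ b'.natDegree ≤ N ∧ a = (X - C c) * a' ∧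
      b = (X - C c) * b' := by
  obtain ⟨a', rfl⟩ := dvd_iff_isRoot.2 hac
  obtain ⟨b', rfl⟩ := dvd_iff_isRoot.2 hbc
  refine ⟨a', b', ?_, ?_, rfl, rfl⟩
  · rcases eq_or_ne a' 0 with rfl | h
    · simp
    · rw [natDegree_mul (X_sub_C_ne_zero c) h, natDegree_X_sub_C] at ha
      omega
  · rcases eq_or_ne b' 0 with rfl | h
    · simp
    · rw [natDegree_mul (X_sub_C_ne_zero c) h, natDegree_X_sub_C] at hb
      omega

lemma eq_zero_of_const {a : A[X]} (ha : a.natDegree ≤ 0) {c : A} (h : a.eval c = 0) : a = 0 := by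
  rw [eq_C_of_natDegree_le_zero ha, eval_C] at h
  rw [eq_C_of_natDegree_le_zero ha, h, C_0]

section data

variable {N : ℕ} {a b : A[X]}

/-- (S1) -/
lemma S1 (ha : a.natDegree ≤ N) (hb : b.natDegree ≤ N) (hne : ¬(a = 0 ∧ b = 0))
    (h1 : (X - C zt) ^ N ∣ RR N a b) (h2 : (X - C zt') ^ (N + 1) ∣ RR N a b) :
    ¬(a.eval (2 * s) = 0 ∧ b.eval (2 * s) = 0) := by
  rintro ⟨hac, hbc⟩
  rcases N with _ | N
  · exact hne ⟨eq_zero_of_const ha hac, eq_zero_of_const hb hbc⟩
  · obtain ⟨a', b', ha', hb', rfl, rfl⟩ := factor_both ha hb hac hbc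
    rw [RR_X_sub_C_mul _ ha' hb', fact2, mul_assoc] at h1 h2
    have h1' := pow_dvd_cancel ne3 h1
    rw [← pow_one (X - C zt')] at h1'
    have h1'' := pow_dvd_cancel ne5 h1'
    have h2' := pow_dvd_cancel ne4 h2
    rw [pow_succ' _ (N + 1)] at h2'
    have h2'' := (mul_dvd_mul_iff_left (X_sub_C_ne_zero zt')).1 h2'
    obtain ⟨h3, h4⟩ := nonsing' ha' hb' (by omega) h1'' h2''
    exact hne ⟨by rw [h3, mul_zero], by rw [h4, mul_zero]⟩

/-- (S2) -/
lemma S2 (ha : a.natDegree ≤ N + 1) (hb : b.natDegree ≤ N + 1) (hne : ¬(a = 0 ∧ b = 0))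
    (h1 : (X - C zt) ^ (N + 1) ∣ RR (N + 1) a b)
    (h2 : (X - C zt') ^ (N + 1 + 1) ∣ RR (N + 1) a b) :
    ¬(a.eval (-(2 * s)) = 0 ∧ b.eval (-(2 * s)) = 0) := by
  rintro ⟨hac, hbc⟩
  obtain ⟨a', b', ha', hb', rfl, rfl⟩ := factor_both ha hb hac hbc
  rw [RR_X_sub_C_mul _ ha' hb', fact1, mul_assoc] at h1 h2
  have h1' := pow_dvd_cancel ne1 h1
  rw [pow_succ' _ N] at h1'
  have h1'' := (mul_dvd_mul_iff_left (X_sub_C_ne_zero zt)).1 h1'
  have h2' := pow_dvd_cancel ne2 h2
  rw [← pow_one (X - C zt)] at h2'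
  have h2'' := pow_dvd_cancel ne5.symm h2'
  obtain ⟨h3, h4⟩ := nonsing' ha' hb' (by omega) h1'' h2''
  exact hne ⟨by rw [h3, mul_zero], by rw [h4, mul_zero]⟩

end data

lemma eval_U_zt : (U A).eval zt = (-(2 * s)) * (V A).eval zt := by
  rw [eval_U, eval_V]; decide

lemma eval_U_zt' : (U A).eval zt' = (2 * s) * (V A).eval zt' := by
  rw [eval_U, eval_V]; decide

lemma eval_U_s : (U A).eval s = (-(2 * s)) * (V A).eval s := by
  rw [eval_U, eval_V]; decide

lemma eval_U_ns : (U A).eval (-s) = (2 * s) * (V A).eval (-s) := by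
  rw [eval_U, eval_V]; decide

lemma eval_V_zt : (V A).eval zt ≠ 0 := by rw [eval_V]; decide
lemma eval_V_zt' : (V A).eval zt' ≠ 0 := by rw [eval_V]; decide
lemma eval_V_s : (V A).eval s ≠ 0 := by rw [eval_V]; decide
lemma eval_V_ns : (V A).eval (-s) ≠ 0 := by rw [eval_V]; decide

/-- descending divisibility from the homogenisation -/
lemma dvd_of_dvd_hom {c κ r : A} (hf : U A - C c * V A = (X - C κ) ^ 2 * (X - C r))
    (hκ : r ≠ κ) (hU : (U A).eval r = c * (V A).eval r) (hV : (V A).eval r ≠ 0) :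
    ∀ (j M : ℕ) (D : A[X]), D.natDegree ≤ M → (X - C r) ^ j ∣ hom M D → (X - C c) ^ j ∣ D := by
  intro j
  induction j with
  | zero => intro M D _ _; simp
  | succ j ih =>
    intro M D hD h
    have h0 : (hom M D).eval r = 0 := by
      have : (X - C r) ∣ hom M D := (dvd_pow_self _ (Nat.succ_ne_zero j)).trans h
      exact dvd_iff_isRoot.1 this
    rw [eval_hom hD hU] at h0
    have h1 : D.eval c = 0 := by
      rcases mul_eq_zero.1 h0 with h | h
      · exact absurd h (pow_ne_zero _ hV)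
      · exact h
    rcases M with _ | M
    · rw [eq_zero_of_const hD h1]
      exact dvd_zero _
    · obtain ⟨D', _, hD', _, rfl, _⟩ := factor_both hD hD h1 h1
      rw [hom_X_sub_C_mul _ hD', hf, mul_assoc] at h
      have h2 := pow_dvd_cancel hκ h
      rw [pow_succ'] at h2
      have h3 := (mul_dvd_mul_iff_left (X_sub_C_ne_zero r)).1 h2
      rw [pow_succ']
      exact mul_dvd_mul_left _ (ih M D' hD' h3)

lemma hom_pow_mul (c : A) {M : ℕ} {p : A[X]} (hp : p.natDegree ≤ M) (k : ℕ) :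
    hom (M + k) ((X - C c) ^ k * p) = (U A - C c * V A) ^ k * hom M p := by
  induction k with
  | zero => simp
  | succ k ih =>
    rw [pow_succ', mul_assoc, ← add_assoc, hom_X_sub_C_mul, ih]
    · ring
    · refine natDegree_mul_le.trans ?_
      rw [natDegree_pow, natDegree_X_sub_C]
      omega

/-- the algebraic data -/
structure Data (N : ℕ) where
  a : A[X]
  b : A[X]
  H : A[X]
  δ : A
  ha : a.natDegree ≤ N
  hb : b.natDegree ≤ N
  hH : H.natDegree ≤ N
  hR : RR N a b = (X - C zt) ^ N * (X - C zt') ^ (N + 1) * H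
  hD : a * b.map cj - a.map cj * b = C δ * (X ^ 2 - 8) ^ N
  hδ : δ ≠ 0
  hS : ¬(a.eval (2 * s) = 0 ∧ b.eval (2 * s) = 0)
  hH1 : H.eval s ≠ 0
  hH2 : H.eval (-s) ≠ 0
  hH3 : H.eval (-2) ≠ 0
  hH4 : H.coeff N ≠ 0
  hI : (X - C zt') * H * hom N (b.map cj) - (X - C zt) * H.map cj * hom N b =
    C δ * ((X - C s) ^ 2 * (X - C (-s)) ^ 2) ^ N

lemma sq_sub_eight : ((X - C (-(2 * s))) * (X - C (2 * s)) : A[X]) = X ^ 2 - 8 := by
  have h := C_s_sq
  simp only [C_neg, C_mul, map_ofNat]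
  linear_combination (-4 : A[X]) * h

theorem exists_data (N : ℕ) : Nonempty (Data N) := by
  have m1 : ((X - C zt : A[X]) ^ N).Monic := (monic_X_sub_C _).pow _
  have m2 : ((X - C zt' : A[X]) ^ (N + 1)).Monic := (monic_X_sub_C _).pow _
  have hdeg : ((X - C zt : A[X]) ^ N * (X - C zt') ^ (N + 1)).natDegree = 2 * N + 1 := by
    rw [m1.natDegree_mul m2, natDegree_pow, natDegree_pow, natDegree_X_sub_C, natDegree_X_sub_C]
    omega
  obtain ⟨a, b, ha, hb, hne, H, hR⟩ := exists_sol (m1.mul m2) hdeg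
  have hd1 : (X - C zt) ^ N ∣ RR N a b := by
    rw [hR, mul_assoc]; exact dvd_mul_right _ _
  have hd2 : (X - C zt') ^ (N + 1) ∣ RR N a b := by
    rw [hR, mul_comm ((X - C zt) ^ N), mul_assoc]; exact dvd_mul_right _ _
  have hs1 := S1 ha hb hne hd1 hd2
  -- degree of H
  have hH : H.natDegree ≤ N := by
    rcases eq_or_ne H 0 with h | h
    · rw [h]; simp
    · have h1 := natDegree_RR N a b
      rw [hR, natDegree_mul (m1.mul m2).ne_zero h, hdeg] at h1
      omega
  -- values of RR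
  have hRzt' : a.eval (2 * s) + zt' * b.eval (2 * s) = 0 := by
    have h0 : (RR N a b).eval zt' = 0 := by
      have : (X - C zt') ∣ RR N a b := (dvd_pow_self _ (Nat.succ_ne_zero N)).trans hd2
      exact dvd_iff_isRoot.1 this
    rw [eval_RR ha hb eval_U_zt'] at h0
    exact (mul_eq_zero.1 h0).resolve_left (pow_ne_zero _ eval_V_zt')
  have hb2s : b.eval (2 * s) ≠ 0 := by
    intro h
    apply hs1
    refine ⟨?_, h⟩
    rw [h, mul_zero, add_zero] at hRzt'
    exact hRzt'
  have hH1 : H.eval s ≠ 0 := by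
    intro h
    have h0 : (RR N a b).eval s = 0 := by rw [hR, eval_mul, h, mul_zero]
    rw [eval_RR ha hb eval_U_s] at h0
    have h1 := (mul_eq_zero.1 h0).resolve_left (pow_ne_zero _ eval_V_s)
    rcases N with _ | N
    · rw [eq_C_of_natDegree_le_zero ha, eq_C_of_natDegree_le_zero hb, eval_C, eval_C] at h1 hRzt'
      have h2 : (zt' - s) * b.coeff 0 = 0 := by linear_combination hRzt' - h1
      have h3 := (mul_eq_zero.1 h2).resolve_left (sub_ne_zero.2 ne2)
      rw [h3, mul_zero, add_zero] at h1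
      apply hne
      constructor
      · rw [eq_C_of_natDegree_le_zero ha, h1, C_0]
      · rw [eq_C_of_natDegree_le_zero hb, h3, C_0]
    · have h0' : (RR (N + 1) a b).eval zt = 0 := by
        have : (X - C zt) ∣ RR (N + 1) a b := (dvd_pow_self _ (Nat.succ_ne_zero N)).trans hd1
        exact dvd_iff_isRoot.1 this
      rw [eval_RR ha hb eval_U_zt] at h0'
      have h2 := (mul_eq_zero.1 h0').resolve_left (pow_ne_zero _ eval_V_zt)
      have h3 : (zt - s) * b.eval (-(2 * s)) = 0 := by linear_combination h2 - h1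
      have h4 := (mul_eq_zero.1 h3).resolve_left (sub_ne_zero.2 ne1)
      rw [h4, mul_zero, add_zero] at h1
      exact S2 ha hb hne hd1 hd2 ⟨h1, h4⟩
  have hH2 : H.eval (-s) ≠ 0 := by
    intro h
    have h0 : (RR N a b).eval (-s) = 0 := by rw [hR, eval_mul, h, mul_zero]
    rw [eval_RR ha hb eval_U_ns] at h0
    have h1 := (mul_eq_zero.1 h0).resolve_left (pow_ne_zero _ eval_V_ns)
    have h2 : (zt' - -s) * b.eval (2 * s) = 0 := by linear_combination hRzt' - h1
    exact hb2s ((mul_eq_zero.1 h2).resolve_left (sub_ne_zero.2 ne4))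
  have hHzt : H.eval zt ≠ 0 := by
    intro h
    obtain ⟨H', rfl⟩ := dvd_iff_isRoot.2 h
    apply hne
    refine nonsing' (i := N + 1) (j := N + 1) ha hb (by omega) ?_ hd2
    rw [hR, pow_succ]
    exact ⟨(X - C zt') ^ (N + 1) * H', by ring⟩
  -- the determinant
  set ab := a.map cj with hab
  set bb := b.map cj with hbb
  have hab' : ab.natDegree ≤ N := natDegree_map_le.trans ha
  have hbb' : bb.natDegree ≤ N := natDegree_map_le.trans hb
  have hRb : RR N ab bb = (X - C zt') ^ N * (X - C zt) ^ (N + 1) * H.map cj := by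
    rw [hab, hbb, ← map_RR, hR]
    simp only [Polynomial.map_mul, Polynomial.map_pow, Polynomial.map_sub, map_X, map_C, cj_zt,
      cj_zt']
  have hDhom : RR N a b * hom N bb - RR N ab bb * hom N b = hom (N + N) (a * bb - ab * b) := by
    rw [hom_sub, ← hom_mul ha hbb', ← hom_mul hab' hb]
    unfold RR
    ring
  have hDdeg : (a * bb - ab * b).natDegree ≤ N + N := by
    refine (natDegree_sub_le _ _).trans (max_le ?_ ?_)
    · exact natDegree_mul_le.trans (by omega)
    · exact natDegree_mul_le.trans (by omega)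
  have hDd1 : (X - C (-(2 * s))) ^ N ∣ a * bb - ab * b := by
    refine dvd_of_dvd_hom fact1 ne1 eval_U_zt eval_V_zt N (N + N) _ hDdeg ?_
    rw [← hDhom, hR, hRb]
    refine ⟨(X - C zt') ^ (N + 1) * H * hom N bb - (X - C zt') ^ N * (X - C zt) * H.map cj *
      hom N b, ?_⟩
    ring
  have hDd2 : (X - C (2 * s)) ^ N ∣ a * bb - ab * b := by
    refine dvd_of_dvd_hom fact2 ne4 eval_U_zt' eval_V_zt' N (N + N) _ hDdeg ?_
    rw [← hDhom, hR, hRb]
    refine ⟨(X - C zt) ^ N * (X - C zt') * H * hom N bb - (X - C zt) ^ (N + 1) * H.map cj *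
      hom N b, ?_⟩
    ring
  obtain ⟨E, hE⟩ := mul_pow_dvd ne6 hDd1 hDd2
  have mE : ((X - C (-(2 * s)) : A[X]) ^ N * (X - C (2 * s)) ^ N).Monic :=
    ((monic_X_sub_C _).pow _).mul ((monic_X_sub_C _).pow _)
  have mEdeg : ((X - C (-(2 * s)) : A[X]) ^ N * (X - C (2 * s)) ^ N).natDegree = N + N := by
    rw [((monic_X_sub_C _).pow _).natDegree_mul ((monic_X_sub_C _).pow _), natDegree_pow,
      natDegree_pow, natDegree_X_sub_C, natDegree_X_sub_C]
    omega
  have hEdeg : E.natDegree ≤ 0 := by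
    rcases eq_or_ne E 0 with h | h
    · rw [h]; simp
    · rw [hE, natDegree_mul mE.ne_zero h, mEdeg] at hDdeg
      omega
  set δ := E.coeff 0 with hδdef
  have hEC : E = C δ := eq_C_of_natDegree_le_zero hEdeg
  have hD : a * bb - ab * b = C δ * (X ^ 2 - 8) ^ N := by
    rw [hE, hEC, ← mul_pow, sq_sub_eight, mul_comm]
  -- nonvanishing of δ
  have hI : (X - C zt') * H * hom N bb - (X - C zt) * H.map cj * hom N b =
      C δ * ((X - C s) ^ 2 * (X - C (-s)) ^ 2) ^ N := by
    have h1 : hom (N + N) (a * bb - ab * b) =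
        C δ * (((X - C s) ^ 2 * (X - C zt)) ^ N * ((X - C (-s)) ^ 2 * (X - C zt')) ^ N) := by
      rw [hE, hEC, mul_comm _ (C δ), hom_C_mul]
      congr 1
      rw [hom_pow_mul _ (by rw [natDegree_pow, natDegree_X_sub_C]; omega : natDegree _ ≤ N)]
      have := hom_pow_mul (2 * s) (M := 0) (p := 1) (by simp) N
      rw [zero_add, mul_one] at this
      rw [this]
      have h01 : hom 0 (1 : A[X]) = 1 := by simp [hom]
      rw [h01, mul_one, fact1, fact2]
    rw [← hDhom, hR, hRb] at h1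
    have hne0 : ((X - C zt : A[X]) ^ N * (X - C zt') ^ N) ≠ 0 :=
      mul_ne_zero (pow_ne_zero _ (X_sub_C_ne_zero _)) (pow_ne_zero _ (X_sub_C_ne_zero _))
    apply mul_left_cancel₀ hne0
    simp only [mul_pow] at h1 ⊢
    linear_combination h1
  have hδ : δ ≠ 0 := by
    intro h
    rw [h, C_0, zero_mul] at hI
    have h1 := congrArg (fun p : A[X] => p.eval zt) hI
    simp only [eval_sub, eval_mul, eval_X, eval_C, sub_self, zero_mul, sub_zero, eval_zero] at h1
    rw [eval_hom hbb' eval_U_zt] at h1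
    have h2 : bb.eval (-(2 * s)) ≠ 0 := by
      have h3 : bb.eval (cj (2 * s)) = cj (b.eval (2 * s)) := by
        rw [hbb, eval_map, eval₂_at_apply]
      have h4 : cj (2 * s) = -(2 * s) := by
        rw [map_mul, cj_s, map_ofNat]; ring
      rw [h4] at h3
      rw [h3]
      intro h5
      apply hb2s
      apply cj_injective
      rw [h5, map_zero]
    exact (mul_ne_zero (mul_ne_zero (sub_ne_zero.2 ne5) hHzt)
      (mul_ne_zero (pow_ne_zero _ eval_V_zt) h2)) h1
  -- top coefficients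
  have htop : a.coeff N * bb.coeff N - ab.coeff N * b.coeff N = δ := by
    have h1 := congrArg (fun p : A[X] => p.coeff (N + N)) hE
    simp only [coeff_sub] at h1
    rw [coeff_mul_add_eq_of_natDegree_le ha hbb', coeff_mul_add_eq_of_natDegree_le hab' hb, hEC,
      mul_comm _ (C δ), coeff_C_mul, ← mEdeg, mE.coeff_natDegree, mul_one] at h1
    exact h1
  have hbN : b.coeff N ≠ 0 := by
    intro h
    apply hδ
    rw [← htop, hbb, coeff_map, h, map_zero]
    ring
  have hγ : a.coeff N - 2 * b.coeff N ≠ 0 := by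
    intro h
    apply hδ
    have h1 : a.coeff N = 2 * b.coeff N := sub_eq_zero.1 h
    rw [← htop, hab, hbb, coeff_map, coeff_map, h1, map_mul, map_ofNat]
    ring
  have hH3 : H.eval (-2) ≠ 0 := by
    intro h
    have h0 := eval_RR_pole N a b
    rw [hR, eval_mul, h, mul_zero] at h0
    exact (mul_ne_zero (pow_ne_zero _ (by decide)) hγ) h0.symm
  have hH4 : H.coeff N ≠ 0 := by
    have h1 := coeff_RR_top N a b
    rw [hR, show 3 * N + 1 = (2 * N + 1) + N by omega,
      coeff_mul_add_eq_of_natDegree_le hdeg.le hH, ← hdeg, (m1.mul m2).coeff_natDegree, one_mul] at h1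
    rw [h1]
    exact hbN
  exact ⟨⟨a, b, H, δ, ha, hb, hH, hR, hD, hδ, hs1, hH1, hH2, hH3, hH4, hI⟩⟩

end Cusp

end Pool.Agent.Lib.MP_625f41_nt
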