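import Pool.Agent.Lib.MP_625f41_nt.CuspC

/-!
# Embedding into the real and complex numbers, and the polynomials `Q_j`
-/

open Polynomial Filter Topology

namespace Pool.Agent.Lib.MP_625f41_nt

namespace Cusp

/-- the real number `√2` -/
noncomputable def σ : ℝ := Real.sqrt 2

lemma σ_sq : σ * σ = 2 := Real.mul_self_sqrt (by norm_num)

lemma σ_pos : 0 < σ := Real.sqrt_pos.2 (by norm_num)

lemma σ_lt : σ < 3 / 2 := by
  have h := σ_sq
  by_contra hcon
  push Not at hcon
  nlinarith

lemma one_lt_σ : 1 < σ := by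
  have h := σ_sq
  have := σ_pos
  by_contra hcon
  push Not at hcon
  nlinarith

/-- the real embedding with `√2 ↦ √2` -/
noncomputable def emR : A →+* ℝ := Zsqrtd.lift ⟨σ, by rw [σ_sq]; norm_num⟩

/-- the complex embedding with `√2 ↦ √2` -/
noncomputable def em : A →+* ℂ := Complex.ofRealHom.comp emR

lemma emR_apply (x : A) : emR x = x.re + x.im * σ := rfl

lemma em_apply (x : A) : em x = (x.re : ℂ) + (x.im : ℂ) * (σ : ℂ) := by
  rw [em, RingHom.comp_apply, emR_apply]
  simp

lemma em_eq_ofReal (x : A) : em x = ((emR x : ℝ) : ℂ) := rfl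

lemma emR_injective : Function.Injective emR := by
  rw [injective_iff_map_eq_zero]
  intro x hx
  by_contra h
  have h1 := norm_ne_zero h
  apply h1
  have h2 : ((x.norm : ℤ) : ℝ) = emR x * emR (cj x) := by
    rw [emR_apply, emR_apply, Zsqrtd.norm_def, cj_re, cj_im]
    push_cast
    have := σ_sq
    linear_combination (-(x.im : ℝ) * x.im) * (-this)
  rw [hx, zero_mul] at h2
  exact_mod_cast h2

lemma em_injective : Function.Injective em :=
  Complex.ofRealHom.injective.comp emR_injective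

lemma em_s : em s = (σ : ℂ) := by
  rw [em_apply]; simp

lemma emR_s : emR s = σ := by
  rw [emR_apply]; simp

lemma two_σ_im (x : A) : 2 * (σ : ℂ) * (x.im : ℂ) = em x - em (cj x) := by
  rw [em_apply, em_apply, cj_re, cj_im]
  push_cast
  ring

lemma emR_two_σ_im (x : A) : 2 * σ * (x.im : ℝ) = emR x - emR (cj x) := by
  rw [emR_apply, emR_apply, cj_re, cj_im]
  push_cast
  ring

lemma norm_eq (x : A) : ((x.norm : ℤ) : ℝ) = emR x * emR (cj x) := by
  rw [emR_apply, emR_apply, Zsqrtd.norm_def, cj_re, cj_im]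
  push_cast
  have := σ_sq
  linear_combination (-(x.im : ℝ) * x.im) * (-this)

/-- the `√2`-part of a polynomial -/
noncomputable def imPoly (p : A[X]) : ℤ[X] := ∑ i ∈ p.support, monomial i (p.coeff i).im

lemma coeff_imPoly (p : A[X]) (i : ℕ) : (imPoly p).coeff i = (p.coeff i).im := by
  classical
  rw [imPoly, finsetSum_coeff]
  simp only [coeff_monomial]
  rw [Finset.sum_ite_eq' p.support i]
  split_ifs with h
  · rfl
  · rw [notMem_support_iff.1 h]; rfl

/-- evaluation of `imPoly` -/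
lemma two_σ_imPoly (p : A[X]) :
    C (2 * (σ : ℂ)) * (imPoly p).map (Int.castRingHom ℂ) = p.map em - (p.map cj).map em := by
  ext i
  rw [coeff_C_mul, coeff_map, coeff_imPoly, coeff_sub, coeff_map, coeff_map, coeff_map]
  simpa using two_σ_im (p.coeff i)

lemma natDegree_imPoly_le (p : A[X]) : (imPoly p).natDegree ≤ p.natDegree := by
  rw [natDegree_le_iff_coeff_eq_zero]
  intro i hi
  rw [coeff_imPoly, coeff_eq_zero_of_natDegree_lt hi]
  rfl

/-- the fundamental unit `1 + √2` -/
def u : A := ⟨1, 1⟩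

lemma emR_u : emR u = 1 + σ := by rw [emR_apply]; simp [u]

lemma emR_cj_u : emR (cj u) = 1 - σ := by
  rw [emR_apply]; simp [u]; ring

lemma u_mul : (1 + σ) * (1 - σ) = -1 := by
  have := σ_sq
  linear_combination -this

/-- `e j = (1 + √2) ^ j` -/
noncomputable def e (j : ℕ) : ℝ := (1 + σ) ^ j

/-- `e' j = (1 - √2) ^ j` -/
noncomputable def e' (j : ℕ) : ℝ := (1 - σ) ^ j

lemma e_pos (j : ℕ) : 0 < e j := pow_pos (by have := σ_pos; linarith) j

lemma e_mul_e' (j : ℕ) : e j * e' j = (-1) ^ j := by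
  rw [e, e', ← mul_pow, u_mul]

lemma abs_e' (j : ℕ) : |e' j| = (e j)⁻¹ := by
  have h := congrArg abs (e_mul_e' j)
  rw [abs_mul, abs_pow, abs_neg, abs_one, one_pow, abs_of_pos (e_pos j)] at h
  rw [eq_inv_of_mul_eq_one_right h]

lemma e'_ne_zero (j : ℕ) : e' j ≠ 0 := by
  intro h
  have := e_mul_e' j
  rw [h, mul_zero] at this
  exact pow_ne_zero j (by norm_num : (-1 : ℝ) ≠ 0) this.symm

lemma one_le_e (j : ℕ) : 1 ≤ e j := one_le_pow₀ (by have := σ_pos; linarith)

lemma emR_pow (j : ℕ) : emR (u ^ j) = e j := by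
  rw [map_pow, emR_u, e]

lemma emR_cj_pow (j : ℕ) : emR (cj (u ^ j)) = e' j := by
  rw [map_pow, map_pow, emR_cj_u, e']

lemma tendsto_e : Tendsto e atTop atTop :=
  tendsto_pow_atTop_atTop_of_one_lt (by have := σ_pos; linarith)

section data

variable {N : ℕ} (d : Data N)

/-- `M = (z - √2)^2 H` -/
noncomputable def Data.M : A[X] := (X - C s) ^ 2 * d.H

/-- the integer polynomial `Q_j` -/
noncomputable def Data.Q (j : ℕ) : ℤ[X] := imPoly (C (u ^ j) * d.M)

lemma natDegree_M_le : d.M.natDegree ≤ N + 2 := by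
  unfold Data.M
  refine natDegree_mul_le.trans ?_
  rw [natDegree_pow, natDegree_X_sub_C]
  have := d.hH
  omega

lemma coeff_M_top : d.M.coeff (N + 2) = d.H.coeff N := by
  unfold Data.M
  rw [add_comm N 2, coeff_mul_add_eq_of_natDegree_le (by rw [natDegree_pow, natDegree_X_sub_C])
    d.hH]
  have : ((X - C s : A[X]) ^ 2).coeff 2 = 1 := by
    have h := ((monic_X_sub_C s).pow 2).coeff_natDegree
    rwa [natDegree_pow, natDegree_X_sub_C] at h
  rw [this, one_mul]

lemma natDegree_Q_le (j : ℕ) : (d.Q j).natDegree ≤ N + 2 :=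
  (natDegree_imPoly_le _).trans ((natDegree_C_mul_le _ _).trans (natDegree_M_le d))

lemma coeff_Q (j i : ℕ) : (d.Q j).coeff i = (u ^ j * d.M.coeff i).im := by
  rw [Data.Q, coeff_imPoly, coeff_C_mul]

/-- `M` and its conjugate as complex polynomials -/
noncomputable def Data.MC : ℂ[X] := d.M.map em

/-- the conjugate of `M`, as a complex polynomial -/
noncomputable def Data.MC' : ℂ[X] := (d.M.map cj).map em

lemma eval_Q (j : ℕ) (z : ℂ) :
    2 * (σ : ℂ) * ((d.Q j).map (Int.castRingHom ℂ)).eval z =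
      (e j : ℂ) * d.MC.eval z - (e' j : ℂ) * d.MC'.eval z := by
  have h := congrArg (fun p : ℂ[X] => p.eval z) (two_σ_imPoly (C (u ^ j) * d.M))
  simp only [Polynomial.map_mul, map_C, eval_mul, eval_C, eval_sub] at h
  rw [Data.Q, h, em_eq_ofReal, em_eq_ofReal, emR_pow, emR_cj_pow]
  rfl

lemma eval_Q_eq_zero_iff (j : ℕ) (z : ℂ) :
    ((d.Q j).map (Int.castRingHom ℂ)).eval z = 0 ↔
      (e j : ℂ) * d.MC.eval z = (e' j : ℂ) * d.MC'.eval z := by
  have h := eval_Q d j z
  have hσ : (2 * (σ : ℂ)) ≠ 0 := by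
    have := σ_pos
    norm_num
    exact this.ne'
  constructor
  · intro h0
    rw [h0, mul_zero] at h
    linear_combination -h
  · intro h0
    rw [h0, sub_self] at h
    exact (mul_eq_zero.1 h).resolve_left hσ

lemma MC_eval (z : ℂ) : d.MC.eval z = (z - σ) ^ 2 * (d.H.map em).eval z := by
  rw [Data.MC, Data.M, Polynomial.map_mul, Polynomial.map_pow, Polynomial.map_sub, map_X, map_C,
    em_s, eval_mul, eval_pow, eval_sub, eval_X, eval_C]

lemma MC'_eval (z : ℂ) : d.MC'.eval z = (z + σ) ^ 2 * ((d.H.map cj).map em).eval z := by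
  rw [Data.MC', Data.M, Polynomial.map_mul, Polynomial.map_pow, Polynomial.map_sub, map_X, map_C,
    cj_s, Polynomial.map_mul, Polynomial.map_pow, Polynomial.map_sub, map_X, map_C, map_neg, em_s,
    eval_mul, eval_pow, eval_sub, eval_X, eval_C, sub_neg_eq_add]

end data

end Cusp

end Pool.Agent.Lib.MP_625f41_nt
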