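import Pool.Agent.Lib.MP_625f41_nt.CuspD

/-!
# Complex consequences of the algebraic data
-/

open Polynomial Filter Topology

namespace Pool.Agent.Lib.MP_625f41_nt

namespace Cusp

lemma em_zt : em zt = 1 - 2 * (σ : ℂ) := by
  rw [zt_eq, map_sub, map_mul, em_s, map_one, map_ofNat]

lemma em_zt' : em zt' = 1 + 2 * (σ : ℂ) := by
  rw [zt'_eq, map_add, map_mul, em_s, map_one, map_ofNat]

lemma σC_sq : (σ : ℂ) * σ = 2 := by
  rw [← Complex.ofReal_mul, σ_sq]; norm_num

lemma σC_ne_zero : (σ : ℂ) ≠ 0 := by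
  exact_mod_cast σ_pos.ne'

lemma eval_map_em (p : A[X]) (x : A) : (p.map em).eval (em x) = em (p.eval x) := by
  rw [eval_map, eval₂_at_apply]

lemma eval_map_cj (p : A[X]) (x : A) : (p.map cj).eval (cj x) = cj (p.eval x) := by
  rw [eval_map, eval₂_at_apply]

/-- the cubic cover -/
noncomputable def xv (z : ℂ) : ℂ := (z ^ 3 - z ^ 2 - 6 * z - 2) / (z + 2)

lemma xv_spec {z : ℂ} (hz : z + 2 ≠ 0) : (U ℂ).eval z = xv z * (V ℂ).eval z := by
  rw [eval_U, eval_V, xv, div_mul_cancel₀ _ hz]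

lemma xv_add {z : ℂ} (hz : z + 2 ≠ 0) :
    (z + 2) * (xv z + 2 * σ) = (z - σ) ^ 2 * (z - (1 - 2 * σ)) := by
  have h := σC_sq
  rw [xv]
  field_simp
  linear_combination (-(-3 * z - 1 + 2 * (σ : ℂ))) * h

lemma xv_sub {z : ℂ} (hz : z + 2 ≠ 0) :
    (z + 2) * (xv z - 2 * σ) = (z + σ) ^ 2 * (z - (1 + 2 * σ)) := by
  have h := σC_sq
  rw [xv]
  field_simp
  linear_combination (-(-3 * z - 1 - 2 * (σ : ℂ))) * h

/-- `ω(z) = (z - ζ)(z - ζ')` -/
noncomputable def om (z : ℂ) : ℂ := (z - (1 - 2 * σ)) * (z - (1 + 2 * σ))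

section data

variable {N : ℕ} (d : Data N)

/-- `g (x, z) = (x + 2√2) (a(x) + z b(x))` -/
noncomputable def Data.g (x z : ℂ) : ℂ :=
  (x + 2 * σ) * ((d.a.map em).eval x + z * (d.b.map em).eval x)

/-- the conjugate of `g` -/
noncomputable def Data.g' (x z : ℂ) : ℂ :=
  (x - 2 * σ) * (((d.a.map cj).map em).eval x + z * ((d.b.map cj).map em).eval x)

lemma rel {z : ℂ} (hz : z + 2 ≠ 0) :
    om z ^ (N + 1) * d.MC.eval z = (z + 2) ^ (N + 1) * d.g (xv z) z := by
  have h1 : (RR N (d.a.map em) (d.b.map em)).eval z =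
      (z - (1 - 2 * σ)) ^ N * (z - (1 + 2 * σ)) ^ (N + 1) * (d.H.map em).eval z := by
    rw [← map_RR, d.hR]
    simp only [Polynomial.map_mul, Polynomial.map_pow, Polynomial.map_sub, map_X, map_C, em_zt,
      em_zt', eval_mul, eval_pow, eval_sub, eval_X, eval_C]
  rw [eval_RR (natDegree_map_le.trans d.ha) (natDegree_map_le.trans d.hb) (xv_spec hz),
    eval_V] at h1
  rw [MC_eval, Data.g, om]
  have h2 := xv_add hz
  calc ((z - (1 - 2 * (σ : ℂ))) * (z - (1 + 2 * σ))) ^ (N + 1) * ((z - σ) ^ 2 *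
        (d.H.map em).eval z) = ((z - σ) ^ 2 * (z - (1 - 2 * σ))) *
        ((z - (1 - 2 * σ)) ^ N * (z - (1 + 2 * σ)) ^ (N + 1) * (d.H.map em).eval z) := by
        rw [mul_pow, pow_succ (z - (1 - 2 * (σ : ℂ))) N]; ring
    _ = (z + 2) ^ (N + 1) * ((xv z + 2 * σ) * ((d.a.map em).eval (xv z) +
          z * (d.b.map em).eval (xv z))) := by
        rw [← h1, ← h2]; ring

lemma rel' {z : ℂ} (hz : z + 2 ≠ 0) :
    om z ^ (N + 1) * d.MC'.eval z = (z + 2) ^ (N + 1) * d.g' (xv z) z := by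
  have h1 : (RR N ((d.a.map cj).map em) ((d.b.map cj).map em)).eval z =
      (z - (1 + 2 * σ)) ^ N * (z - (1 - 2 * σ)) ^ (N + 1) * ((d.H.map cj).map em).eval z := by
    rw [← map_RR, ← map_RR, d.hR]
    simp only [Polynomial.map_mul, Polynomial.map_pow, Polynomial.map_sub, map_X, map_C, em_zt,
      em_zt', cj_zt, cj_zt', eval_mul, eval_pow, eval_sub, eval_X, eval_C]
  rw [eval_RR (natDegree_map_le.trans (natDegree_map_le.trans d.ha))
    (natDegree_map_le.trans (natDegree_map_le.trans d.hb)) (xv_spec hz), eval_V] at h1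
  rw [MC'_eval, Data.g', om]
  have h2 := xv_sub hz
  calc ((z - (1 - 2 * (σ : ℂ))) * (z - (1 + 2 * σ))) ^ (N + 1) * ((z + σ) ^ 2 *
        ((d.H.map cj).map em).eval z) = ((z + σ) ^ 2 * (z - (1 + 2 * σ))) *
        ((z - (1 + 2 * σ)) ^ N * (z - (1 - 2 * σ)) ^ (N + 1) *
          ((d.H.map cj).map em).eval z) := by
        rw [mul_pow, pow_succ (z - (1 + 2 * (σ : ℂ))) N]; ring
    _ = (z + 2) ^ (N + 1) * ((xv z - 2 * σ) * (((d.a.map cj).map em).eval (xv z) +
          z * ((d.b.map cj).map em).eval (xv z))) := by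
        rw [← h1, ← h2]; ring

lemma det_eval (x : ℂ) :
    (d.a.map em).eval x * ((d.b.map cj).map em).eval x -
      ((d.a.map cj).map em).eval x * (d.b.map em).eval x = em d.δ * (x ^ 2 - 8) ^ N := by
  have h := congrArg (fun p : A[X] => (p.map em).eval x) d.hD
  simpa only [Polynomial.map_mul, Polynomial.map_pow, Polynomial.map_sub, map_X, map_C,
      eval_mul, eval_pow, eval_sub, eval_X, eval_C, Polynomial.map_ofNat, eval_ofNat] using h

lemma em_ne_zero {x : A} (hx : x ≠ 0) : em x ≠ 0 := by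
  intro h
  apply hx
  apply em_injective
  rw [h, map_zero]

lemma cj_ne_zero {x : A} (hx : x ≠ 0) : cj x ≠ 0 := by
  intro h
  apply hx
  apply cj_injective
  rw [h, map_zero]

lemma H_σ : (d.H.map em).eval (σ : ℂ) ≠ 0 := by
  rw [← em_s, eval_map_em]
  exact em_ne_zero d.hH1

lemma H_nσ : (d.H.map em).eval (-(σ : ℂ)) ≠ 0 := by
  rw [← em_s, ← map_neg, eval_map_em]
  exact em_ne_zero d.hH2

lemma H'_σ : ((d.H.map cj).map em).eval (σ : ℂ) ≠ 0 := by
  have : s = cj (-s) := by rw [map_neg, cj_s, neg_neg]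
  rw [← em_s, eval_map_em, this, eval_map_cj]
  exact em_ne_zero (cj_ne_zero d.hH2)

lemma MC'_σ : d.MC'.eval (σ : ℂ) ≠ 0 := by
  rw [MC'_eval]
  refine mul_ne_zero (pow_ne_zero _ ?_) (H'_σ d)
  rw [← two_mul]
  exact mul_ne_zero two_ne_zero σC_ne_zero

lemma eval_Q_σ (j : ℕ) : ((d.Q j).map (Int.castRingHom ℂ)).eval (σ : ℂ) ≠ 0 := by
  intro h
  rw [eval_Q_eq_zero_iff, MC_eval, sub_self] at h
  have h1 := MC'_σ d
  have h2 : (e' j : ℂ) ≠ 0 := by exact_mod_cast e'_ne_zero j
  exact (mul_ne_zero h2 h1) (by rw [← h]; ring)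

/-- `M` and its conjugate have no common root -/
lemma no_common {z : ℂ} (h1 : d.MC.eval z = 0) (h2 : d.MC'.eval z = 0) : False := by
  rw [MC_eval] at h1
  by_cases hz : z = σ
  · rw [hz] at h2
    exact MC'_σ d h2
  by_cases hz' : z = -σ
  · rw [hz'] at h1
    refine mul_ne_zero (pow_ne_zero _ ?_) (H_nσ d) h1
    have := σC_ne_zero
    intro h
    apply this
    linear_combination (-1 / 2 : ℂ) * h
  have h1' := (mul_eq_zero.1 h1).resolve_left (pow_ne_zero _ (sub_ne_zero.2 hz))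
  rw [MC'_eval] at h2
  have hz2 : z + σ ≠ 0 := by
    intro h
    apply hz'
    linear_combination h
  have h2' := (mul_eq_zero.1 h2).resolve_left (pow_ne_zero _ hz2)
  have h := congrArg (fun p : A[X] => (p.map em).eval z) d.hI
  simp only [Polynomial.map_mul, Polynomial.map_pow, Polynomial.map_sub, map_X, map_C,
      eval_mul, eval_pow, eval_sub, eval_X, eval_C, h1', h2', mul_zero, zero_mul, sub_zero,
      C_neg, Polynomial.map_neg, eval_neg, em_s] at h
  have h3 : em d.δ * ((z - σ) ^ 2 * (z - -σ) ^ 2) ^ N ≠ 0 := by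
    refine mul_ne_zero (em_ne_zero d.hδ) (pow_ne_zero _ (mul_ne_zero (pow_ne_zero _
      (sub_ne_zero.2 hz)) (pow_ne_zero _ (sub_ne_zero.2 hz'))))
  exact h3 h.symm

lemma rel_root {j : ℕ} {z : ℂ} (hz : z + 2 ≠ 0)
    (h : ((d.Q j).map (Int.castRingHom ℂ)).eval z = 0) :
    (e j : ℂ) * d.g (xv z) z = (e' j : ℂ) * d.g' (xv z) z := by
  rw [eval_Q_eq_zero_iff] at h
  have h1 := rel d hz
  have h2 := rel' d hz
  apply mul_left_cancel₀ (pow_ne_zero (N + 1) hz)
  linear_combination (om z ^ (N + 1)) * h - (e j : ℂ) * h1 + (e' j : ℂ) * h2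

/-- the cover is injective on the roots of `Q_j` -/
lemma xv_injOn {j : ℕ} {z w : ℂ} (hz : z + 2 ≠ 0) (hw : w + 2 ≠ 0)
    (h1 : ((d.Q j).map (Int.castRingHom ℂ)).eval z = 0)
    (h2 : ((d.Q j).map (Int.castRingHom ℂ)).eval w = 0) (hx : xv z = xv w) : z = w := by
  by_contra hne
  have r1 := rel_root d hz h1
  have r2 := rel_root d hw h2
  rw [← hx] at r2
  set x := xv z with hxdef
  have hdet := det_eval d x
  unfold Data.g Data.g' at r1 r2
  set a := (d.a.map em).eval x with ha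
  set b := (d.b.map em).eval x with hb
  set a' := ((d.a.map cj).map em).eval x with ha'
  set b' := ((d.b.map cj).map em).eval x with hb'
  have hsub : z - w ≠ 0 := sub_ne_zero.2 hne
  have P1 : (e j : ℂ) * (x + 2 * σ) * b - (e' j : ℂ) * (x - 2 * σ) * b' = 0 := by
    apply mul_left_cancel₀ hsub
    linear_combination r1 - r2
  have P0 : (e j : ℂ) * (x + 2 * σ) * a - (e' j : ℂ) * (x - 2 * σ) * a' = 0 := by
    linear_combination r1 - z * P1
  have he : (e j : ℂ) ≠ 0 := by exact_mod_cast (e_pos j).ne'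
  have he' : (e' j : ℂ) ≠ 0 := by exact_mod_cast e'_ne_zero j
  have hδ := em_ne_zero d.hδ
  have h8 : (x + 2 * σ) * (em d.δ * (x ^ 2 - 8) ^ N) = 0 := by
    rw [← hdet]
    apply mul_left_cancel₀ he
    linear_combination b' * P0 - a' * P1
  have hx8 : (x + 2 * σ) * (x - 2 * σ) = x ^ 2 - 8 := by
    have := σC_sq
    linear_combination (-4) * this
  have hcase : x + 2 * σ = 0 ∨ x - 2 * σ = 0 := by
    rcases mul_eq_zero.1 h8 with h | h
    · exact Or.inl h
    · rcases mul_eq_zero.1 h with h | h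
      · exact absurd h hδ
      · rcases Nat.eq_zero_or_pos N with hN | hN
        · rw [hN, pow_zero] at h
          exact absurd h one_ne_zero
        · rw [pow_eq_zero_iff (by omega), ← hx8] at h
          exact mul_eq_zero.1 h
  have hσ := σC_ne_zero
  rcases hcase with h | h
  · -- x = -2σ
    have hx0 : x = em (cj (2 * s)) := by
      rw [map_mul, cj_s, map_ofNat, map_mul, map_ofNat, map_neg, em_s]
      linear_combination h
    rw [h] at P0 P1
    have hfac : (e' j : ℂ) * (x - 2 * σ) ≠ 0 := by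
      apply mul_ne_zero he'
      intro h'
      apply hσ
      linear_combination (1 / 4 : ℂ) * (h - h')
    have ha0 : a' = 0 := by
      apply mul_left_cancel₀ hfac
      linear_combination -P0
    have hb0 : b' = 0 := by
      apply mul_left_cancel₀ hfac
      linear_combination -P1
    rw [ha', hx0, eval_map_em, eval_map_cj] at ha0
    rw [hb', hx0, eval_map_em, eval_map_cj] at hb0
    refine d.hS ⟨?_, ?_⟩
    · by_contra hcon
      exact em_ne_zero (cj_ne_zero hcon) ha0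
    · by_contra hcon
      exact em_ne_zero (cj_ne_zero hcon) hb0
  · have hx0 : x = em (2 * s) := by
      rw [map_mul, map_ofNat, em_s]
      linear_combination h
    rw [h] at P0 P1
    have hfac : (e j : ℂ) * (x + 2 * σ) ≠ 0 := by
      apply mul_ne_zero he
      intro h'
      apply hσ
      linear_combination (1 / 4 : ℂ) * (h' - h)
    have ha0 : a = 0 := by
      apply mul_left_cancel₀ hfac
      linear_combination P0
    have hb0 : b = 0 := by
      apply mul_left_cancel₀ hfac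
      linear_combination P1
    rw [ha, hx0, eval_map_em] at ha0
    rw [hb, hx0, eval_map_em] at hb0
    refine d.hS ⟨?_, ?_⟩
    · by_contra hcon
      exact em_ne_zero hcon ha0
    · by_contra hcon
      exact em_ne_zero hcon hb0

lemma A0_ne_zero : (d.a.map em).eval (-(2 * σ) : ℂ) + σ * (d.b.map em).eval (-(2 * σ) : ℂ) ≠ 0 := by
  have h0 : (RR N d.a d.b).eval s ≠ 0 := by
    rw [d.hR, eval_mul, eval_mul, eval_pow, eval_pow, eval_sub, eval_sub, eval_X, eval_C, eval_C]
    exact mul_ne_zero (mul_ne_zero (pow_ne_zero _ (sub_ne_zero.2 ne1.symm))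
      (pow_ne_zero _ (sub_ne_zero.2 ne2.symm))) d.hH1
  rw [eval_RR d.ha d.hb eval_U_s] at h0
  have h1 := em_ne_zero (right_ne_zero_of_mul h0)
  rw [map_add, map_mul, em_s, ← eval_map_em, ← eval_map_em, map_neg, map_mul, em_s, map_ofNat] at h1
  exact h1

lemma G0_ne_zero : ((d.a.map cj).map em).eval (-(2 * σ) : ℂ) +
    σ * ((d.b.map cj).map em).eval (-(2 * σ) : ℂ) ≠ 0 := by
  have h0 : (RR N d.a d.b).eval (-s) ≠ 0 := by
    rw [d.hR, eval_mul, eval_mul, eval_pow, eval_pow, eval_sub, eval_sub, eval_X, eval_C, eval_C]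
    exact mul_ne_zero (mul_ne_zero (pow_ne_zero _ (sub_ne_zero.2 ne3.symm))
      (pow_ne_zero _ (sub_ne_zero.2 ne4.symm))) d.hH2
  rw [eval_RR d.ha d.hb eval_U_ns] at h0
  have h1 := em_ne_zero (cj_ne_zero (right_ne_zero_of_mul h0))
  rw [map_add, map_mul, ← eval_map_cj, ← eval_map_cj, map_neg, cj_s, neg_neg, map_mul cj, cj_s,
    map_ofNat cj, map_add, map_mul em s, em_s, ← eval_map_em, ← eval_map_em, mul_neg, map_neg,
    map_mul, em_s, map_ofNat] at h1
  exact h1

end data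

end Cusp

end Pool.Agent.Lib.MP_625f41_nt
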