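import Pool.Agent.Lib.MP_625f41_nt.CuspE

/-!
# Analysis near the cusp
-/

open Polynomial Filter Topology

namespace Pool.Agent.Lib.MP_625f41_nt

namespace Cusp

/-- polynomials are Lipschitz on balls -/
lemma poly_lip (R : ℝ) (p : ℂ[X]) : ∃ L : ℝ, 0 ≤ L ∧ ∀ x y : ℂ, ‖x‖ ≤ R → ‖y‖ ≤ R →
    ‖p.eval x - p.eval y‖ ≤ L * ‖x - y‖ := by
  rcases lt_or_ge R 0 with hR | hR
  · refine ⟨0, le_rfl, fun x y hx _ => ?_⟩
    have := norm_nonneg x
    linarith
  induction p using Polynomial.induction_on with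
  | C a => exact ⟨0, le_rfl, fun x y _ _ => by simp⟩
  | add p q hp hq =>
    obtain ⟨L1, h1, h1'⟩ := hp
    obtain ⟨L2, h2, h2'⟩ := hq
    refine ⟨L1 + L2, by positivity, fun x y hx hy => ?_⟩
    rw [eval_add, eval_add, show p.eval x + q.eval x - (p.eval y + q.eval y) =
      (p.eval x - p.eval y) + (q.eval x - q.eval y) by ring]
    refine (norm_add_le _ _).trans ?_
    rw [add_mul]
    exact add_le_add (h1' x y hx hy) (h2' x y hx hy)
  | monomial n a ih =>
    obtain ⟨L, h1, h1'⟩ := ih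
    -- the polynomial `C a * X ^ (n+1)`
    refine ⟨R * L + ‖a‖ * R ^ n, by positivity, fun x y hx hy => ?_⟩
    have e1 : ∀ t : ℂ, (C a * X ^ (n + 1) : ℂ[X]).eval t = t * (C a * X ^ n : ℂ[X]).eval t := by
      intro t; simp only [eval_mul, eval_C, eval_pow, eval_X]; ring
    rw [e1, e1]
    have e2 : x * (C a * X ^ n : ℂ[X]).eval x - y * (C a * X ^ n : ℂ[X]).eval y =
      x * ((C a * X ^ n : ℂ[X]).eval x - (C a * X ^ n : ℂ[X]).eval y) +
        (x - y) * (C a * X ^ n : ℂ[X]).eval y := by ring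
    rw [e2]
    refine (norm_add_le _ _).trans ?_
    rw [norm_mul, norm_mul, add_mul]
    refine add_le_add ?_ ?_
    · calc ‖x‖ * ‖(C a * X ^ n : ℂ[X]).eval x - (C a * X ^ n : ℂ[X]).eval y‖
          ≤ R * (L * ‖x - y‖) := mul_le_mul hx (h1' x y hx hy) (norm_nonneg _) hR
        _ = R * L * ‖x - y‖ := by ring
    · have : ‖(C a * X ^ n : ℂ[X]).eval y‖ ≤ ‖a‖ * R ^ n := by
        simp only [eval_mul, eval_C, eval_pow, eval_X, norm_mul, norm_pow]
        exact mul_le_mul_of_nonneg_left (pow_le_pow_left₀ (norm_nonneg _) hy n) (norm_nonneg _)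
      calc ‖x - y‖ * ‖(C a * X ^ n : ℂ[X]).eval y‖ ≤ ‖x - y‖ * (‖a‖ * R ^ n) :=
            mul_le_mul_of_nonneg_left this (norm_nonneg _)
        _ = ‖a‖ * R ^ n * ‖x - y‖ := by ring

/-- if `|p(w)|` is small compared with the leading coefficient, a root is near `w` -/
lemma exists_root_near {p : ℂ[X]} {n : ℕ} (hn : p.natDegree = n) {w : ℂ} {r : ℝ} (hr : 0 < r)
    (h : ‖p.eval w‖ < ‖p.leadingCoeff‖ * r ^ n) : ∃ z, p.eval z = 0 ∧ ‖z - w‖ < r := by
  by_contra hcon
  push Not at hcon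
  have hsp := IsAlgClosed.splits p
  rw [hsp.eval_eq_prod_roots, norm_mul] at h
  have hlc : 0 < ‖p.leadingCoeff‖ := by
    by_contra h0
    have h0' : ‖p.leadingCoeff‖ = 0 := le_antisymm (not_lt.1 h0) (norm_nonneg _)
    rw [h0', zero_mul, zero_mul] at h
    exact lt_irrefl _ h
  have hp : p ≠ 0 := by
    rintro rfl
    simp at hlc
  have h1 := lt_of_mul_lt_mul_left h hlc.le
  have hcard : Multiset.card p.roots = n := by rw [← hn]; exact hsp.natDegree_eq_card_roots.symm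
  have hall : ∀ z ∈ p.roots, r ≤ ‖w - z‖ := by
    intro z hz
    rw [norm_sub_rev]
    exact hcon z ((mem_roots hp).1 hz)
  have h2 : ∀ m : Multiset ℂ, (∀ z ∈ m, r ≤ ‖w - z‖) →
      r ^ (Multiset.card m) ≤ ‖(m.map fun a => w - a).prod‖ := by
    intro m
    induction m using Multiset.induction_on with
    | empty => intro _; simp
    | cons a m ih =>
      intro hm
      rw [Multiset.card_cons, Multiset.map_cons, Multiset.prod_cons, norm_mul, pow_succ']
      exact mul_le_mul (hm a (Multiset.mem_cons_self a m))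
        (ih fun z hz => hm z (Multiset.mem_cons_of_mem hz)) (pow_nonneg hr.le _) (norm_nonneg _)
  have h3 := h2 _ hall
  rw [hcard] at h3
  exact absurd h1 (not_lt.2 h3)

lemma im_lower {x : A} (hx : x ≠ 0) : ∃ c : ℝ, 0 < c ∧
    ∀ᶠ j in atTop, c * e j ≤ |(((u ^ j * x).im : ℤ) : ℝ)| := by
  have hx' : emR x ≠ 0 := by
    intro h
    apply hx
    apply emR_injective
    rw [h, map_zero]
  have hpos : 0 < |emR x| := abs_pos.2 hx'
  have hσ := σ_pos
  refine ⟨|emR x| / (4 * σ), by positivity, ?_⟩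
  have h1 : ∀ᶠ j in atTop, |emR (cj x)| / (|emR x| / 2) ≤ e j :=
    tendsto_e.eventually_ge_atTop _
  filter_upwards [h1] with j hj
  have h2 := emR_two_σ_im (u ^ j * x)
  rw [map_mul emR, map_mul cj, map_mul emR, emR_pow, emR_cj_pow] at h2
  have h3 : 2 * σ * |(((u ^ j * x).im : ℤ) : ℝ)| = |e j * emR x - e' j * emR (cj x)| := by
    rw [← h2, abs_mul, abs_of_pos (by positivity : 0 < 2 * σ)]
  have h4 : e j * |emR x| - |emR (cj x)| ≤ |e j * emR x - e' j * emR (cj x)| := by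
    have h5 := abs_sub_abs_le_abs_sub (e j * emR x) (e' j * emR (cj x))
    rw [abs_mul, abs_mul, abs_of_pos (e_pos j), abs_e'] at h5
    have h6 : (e j)⁻¹ ≤ 1 := inv_le_one_of_one_le₀ (one_le_e j)
    have h7 : (e j)⁻¹ * |emR (cj x)| ≤ 1 * |emR (cj x)| :=
      mul_le_mul_of_nonneg_right h6 (abs_nonneg _)
    linarith
  rw [div_le_iff₀ (by positivity)] at hj
  rw [div_mul_eq_mul_div, div_le_iff₀ (by positivity)]
  nlinarith

section data

variable {N : ℕ} (d : Data N)

/-- the leading coefficient of `Q_j` is eventually large -/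
lemma lead_lower : ∃ c : ℝ, 0 < c ∧ ∀ᶠ j in atTop, (d.Q j).natDegree = N + 2 ∧
    c * e j ≤ |(((d.Q j).leadingCoeff : ℤ) : ℝ)| := by
  have h1 : d.M.coeff (N + 2) ≠ 0 := by rw [coeff_M_top]; exact d.hH4
  obtain ⟨c, hc, h⟩ := im_lower h1
  refine ⟨c, hc, ?_⟩
  filter_upwards [h] with j hj
  have h2 : (d.Q j).coeff (N + 2) ≠ 0 := by
    rw [coeff_Q]
    intro h0
    rw [h0] at hj
    have := mul_pos hc (e_pos j)
    simp only [Int.cast_zero, abs_zero] at hj
    linarith
  have h3 : (d.Q j).natDegree = N + 2 :=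
    le_antisymm (natDegree_Q_le d j) (le_natDegree_of_ne_zero h2)
  refine ⟨h3, ?_⟩
  rw [leadingCoeff, h3, coeff_Q]
  exact hj

/-- `Q_j` does not vanish at the pole `-2`, eventually -/
lemma Q_pole : ∀ᶠ j in atTop, ((d.Q j).map (Int.castRingHom ℂ)).eval (-2) ≠ 0 := by
  have h1 : d.M.eval (-2) ≠ 0 := by
    unfold Data.M
    rw [eval_mul, eval_pow, eval_sub, eval_X, eval_C]
    exact mul_ne_zero (pow_ne_zero _ (by decide)) d.hH3
  obtain ⟨c, hc, h⟩ := im_lower h1
  filter_upwards [h] with j hj h0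
  have h2 := eval_Q d j (-2)
  rw [h0, mul_zero] at h2
  have h3 : d.MC.eval (-2) = em (d.M.eval (-2)) := by
    rw [Data.MC, ← eval_map_em, map_neg, map_ofNat]
  have h4 : d.MC'.eval (-2) = em (cj (d.M.eval (-2))) := by
    rw [Data.MC', ← eval_map_cj, ← eval_map_em, map_neg, map_neg, map_ofNat, map_ofNat]
  have h5 := two_σ_im (u ^ j * d.M.eval (-2))
  rw [map_mul, map_mul cj, map_mul em, em_eq_ofReal (u ^ j), em_eq_ofReal (cj (u ^ j)), emR_pow,
    emR_cj_pow, ← h3, ← h4, ← h2] at h5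
  have h6 : (u ^ j * d.M.eval (-2)).im = 0 := by
    rcases mul_eq_zero.1 h5 with h | h
    · exact absurd h (mul_ne_zero two_ne_zero σC_ne_zero)
    · exact_mod_cast h
  rw [h6] at hj
  have := mul_pos hc (e_pos j)
  simp only [Int.cast_zero, abs_zero] at hj
  linarith

end data

end Cusp

end Pool.Agent.Lib.MP_625f41_nt
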