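import Pool.Agent.Lib.MP_625f41_nt.CuspF

/-!
# The two-point estimate and the non-real root near the cusp
-/

open Polynomial Filter Topology

namespace Pool.Agent.Lib.MP_625f41_nt

namespace Cusp

lemma σ_add_two_ne : (σ : ℂ) + 2 ≠ 0 := by
  have h : (σ : ℂ) + 2 = ((σ + 2 : ℝ) : ℂ) := by push_cast; ring
  rw [h]
  exact_mod_cast (by have := σ_pos; linarith : σ + 2 ≠ 0)

lemma xv_σ : xv (σ : ℂ) = -(2 * σ) := by
  have h := xv_add σ_add_two_ne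
  rw [sub_self] at h
  have h1 : ((σ : ℂ) + 2) * (xv σ + 2 * σ) = 0 := by rw [h]; ring
  have h2 := (mul_eq_zero.1 h1).resolve_left σ_add_two_ne
  linear_combination h2

lemma continuousAt_xv : ContinuousAt xv (σ : ℂ) := by
  unfold xv
  refine ContinuousAt.div ?_ ?_ σ_add_two_ne
  · fun_prop
  · fun_prop

lemma continuousAt_eval_xv (p : ℂ[X]) : ContinuousAt (fun z => p.eval (xv z)) (σ : ℂ) :=
  (p.continuous.continuousAt).comp continuousAt_xv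

section data

variable {N : ℕ} (d : Data N)

/-- the affine-in-`z` factor -/
noncomputable def Data.AA (x z : ℂ) : ℂ := (d.a.map em).eval x + z * (d.b.map em).eval x

lemma continuousAt_AA : ContinuousAt (fun z => d.AA (xv z) z) (σ : ℂ) :=
  (continuousAt_eval_xv _).add (continuousAt_id.mul (continuousAt_eval_xv _))

lemma continuousAt_g' : ContinuousAt (fun z => d.g' (xv z) z) (σ : ℂ) := by
  unfold Data.g'
  exact (continuousAt_xv.sub continuousAt_const).mul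
    ((continuousAt_eval_xv _).add (continuousAt_id.mul (continuousAt_eval_xv _)))

lemma continuousAt_g : ContinuousAt (fun z => d.g (xv z) z) (σ : ℂ) := by
  unfold Data.g
  exact (continuousAt_xv.add continuousAt_const).mul
    ((continuousAt_eval_xv _).add (continuousAt_id.mul (continuousAt_eval_xv _)))

lemma AA_σ : d.AA (xv σ) σ ≠ 0 := by
  rw [xv_σ]
  exact A0_ne_zero d

lemma g'_σ : d.g' (xv σ) σ ≠ 0 := by
  rw [xv_σ]
  unfold Data.g'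
  refine mul_ne_zero ?_ (G0_ne_zero d)
  intro h
  apply σC_ne_zero
  linear_combination (-1 / 4 : ℂ) * h

lemma g_σ : d.g (xv σ) σ = 0 := by
  rw [xv_σ]
  unfold Data.g
  ring

/-- **The two-point estimate.** -/
theorem two_point : ∃ ρ K : ℝ, 0 < ρ ∧ 0 ≤ K ∧ ∀ (j : ℕ) (z w : ℂ), ‖z - σ‖ < ρ → ‖w - σ‖ < ρ →
    ((d.Q j).map (Int.castRingHom ℂ)).eval z = 0 →
    ((d.Q j).map (Int.castRingHom ℂ)).eval w = 0 →
    z + 2 ≠ 0 ∧ w + 2 ≠ 0 ∧ ‖xv w - xv z‖ ≤ K * ‖z - σ‖ ^ (2 * (N + 1)) * ‖w - z‖ := by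
  obtain ⟨La, hLa, hLa'⟩ := poly_lip 4 (d.a.map em)
  obtain ⟨Lb, hLb, hLb'⟩ := poly_lip 4 (d.b.map em)
  obtain ⟨Lp, hLp, hLp'⟩ := poly_lip 4 ((X - C (2 * (σ : ℂ))) * (d.a.map cj).map em)
  obtain ⟨Lq, hLq, hLq'⟩ := poly_lip 4 ((X - C (2 * (σ : ℂ))) * (d.b.map cj).map em)
  set A0 := d.AA (xv σ) σ with hA0
  set G0 := d.g' (xv σ) σ with hG0
  have hA0pos : 0 < ‖A0‖ := norm_pos_iff.2 (AA_σ d)
  have hG0pos : 0 < ‖G0‖ := norm_pos_iff.2 (g'_σ d)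
  set L1 := La + 3 * Lb with hL1
  set L2 := Lp + 3 * Lq with hL2
  have hL1nn : 0 ≤ L1 := by positivity
  have hL2nn : 0 ≤ L2 := by positivity
  have hσpos := σ_pos
  have hσlt := σ_lt
  have hnσ : ‖(σ : ℂ)‖ = σ := by
    rw [Complex.norm_real, Real.norm_of_nonneg hσpos.le]
  -- eventual properties
  have E1 : ∀ᶠ z in 𝓝 (σ : ℂ), ‖A0‖ / 2 < ‖d.AA (xv z) z‖ :=
    (continuousAt_AA d).norm.eventually_const_lt (by linarith)
  have E2 : ∀ᶠ z in 𝓝 (σ : ℂ), ‖G0‖ / 2 < ‖d.g' (xv z) z‖ :=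
    (continuousAt_g' d).norm.eventually_const_lt (by linarith)
  have E3 : ∀ᶠ z in 𝓝 (σ : ℂ), L2 * ‖d.g (xv z) z‖ < ‖A0‖ * ‖G0‖ / 16 := by
    have : ContinuousAt (fun z => L2 * ‖d.g (xv z) z‖) (σ : ℂ) :=
      continuousAt_const.mul (continuousAt_g d).norm
    refine this.eventually_lt_const ?_
    beta_reduce
    rw [g_σ, norm_zero, mul_zero]
    positivity
  have E4 : ∀ᶠ z in 𝓝 (σ : ℂ), L1 * ‖xv z + 2 * σ‖ < ‖A0‖ / 8 := by
    have : ContinuousAt (fun z => L1 * ‖xv z + 2 * σ‖) (σ : ℂ) :=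
      continuousAt_const.mul (continuousAt_xv.add continuousAt_const).norm
    refine this.eventually_lt_const ?_
    beta_reduce
    rw [xv_σ, neg_add_cancel, norm_zero, mul_zero]
    positivity
  have E5 : ∀ᶠ z in 𝓝 (σ : ℂ), ‖xv z‖ < 4 := by
    refine continuousAt_xv.norm.eventually_lt_const ?_
    beta_reduce
    rw [xv_σ, norm_neg, norm_mul, hnσ, Complex.norm_ofNat]
    linarith
  obtain ⟨ρ, hρ, hball⟩ := Metric.eventually_nhds_iff.1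
    (E1.and (E2.and (E3.and (E4.and E5))))
  refine ⟨min ρ 1, 8 * (‖em d.δ‖ * 35 ^ (N + 1)) / (‖A0‖ * ‖G0‖), lt_min hρ one_pos,
    by positivity, ?_⟩
  intro j z w hz hw hQz hQw
  have hz1 : ‖z - σ‖ < 1 := hz.trans_le (min_le_right _ _)
  have hw1 : ‖w - σ‖ < 1 := hw.trans_le (min_le_right _ _)
  have add2 : ∀ t : ℂ, ‖t - σ‖ < 1 → 1 ≤ ‖t + 2‖ := by
    intro t ht
    have h1 : ‖((σ : ℂ) + 2)‖ = σ + 2 := by
      have h : (σ : ℂ) + 2 = ((σ + 2 : ℝ) : ℂ) := by push_cast; ring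
      rw [h, Complex.norm_real, Real.norm_of_nonneg (by linarith)]
    have h2 : ‖(σ : ℂ) + 2‖ ≤ ‖t + 2‖ + ‖t - σ‖ := by
      have : (σ : ℂ) + 2 = (t + 2) - (t - σ) := by ring
      rw [this]
      exact norm_sub_le _ _
    linarith
  have hz2n := add2 z hz1
  have hw2n := add2 w hw1
  have hz2 : z + 2 ≠ 0 := by
    intro h; rw [h, norm_zero] at hz2n; linarith
  have hw2 : w + 2 ≠ 0 := by
    intro h; rw [h, norm_zero] at hw2n; linarith
  refine ⟨hz2, hw2, ?_⟩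
  obtain ⟨z1, z2, z3, z4, z5⟩ := hball (y := z) (by
    rw [dist_eq_norm]; exact hz.trans_le (min_le_left _ _))
  obtain ⟨w1, w2, w3, w4, w5⟩ := hball (y := w) (by
    rw [dist_eq_norm]; exact hw.trans_le (min_le_left _ _))
  have r1 := rel_root d hz2 hQz
  have r2 := rel_root d hw2 hQw
  have he : (e j : ℂ) ≠ 0 := by exact_mod_cast (e_pos j).ne'
  have hcross : d.g (xv z) z * d.g' (xv w) w - d.g (xv w) w * d.g' (xv z) z = 0 := by
    apply mul_left_cancel₀ he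
    linear_combination (d.g' (xv w) w) * r1 - (d.g' (xv z) z) * r2
  have hdet := det_eval d (xv z)
  -- notation
  set x := xv z with hx
  set y := xv w with hy
  set Δa := (d.a.map em).eval y - (d.a.map em).eval x with hΔa
  set Δb := (d.b.map em).eval y - (d.b.map em).eval x with hΔb
  set Δp := ((X - C (2 * (σ : ℂ))) * (d.a.map cj).map em).eval y -
    ((X - C (2 * (σ : ℂ))) * (d.a.map cj).map em).eval x with hΔp
  set Δq := ((X - C (2 * (σ : ℂ))) * (d.b.map cj).map em).eval y -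
    ((X - C (2 * (σ : ℂ))) * (d.b.map cj).map em).eval x with hΔq
  have hσ2 := σC_sq
  have hid : (y - x) * (d.AA y w * d.g' x z) =
      (w - z) * (em d.δ * (x ^ 2 - 8) ^ (N + 1)) + d.g x z * (Δp + w * Δq) -
        (x + 2 * σ) * (Δa + w * Δb) * d.g' x z := by
    have h8 : (x ^ 2 - 8 : ℂ) = (x + 2 * σ) * (x - 2 * σ) := by
      linear_combination 4 * hσ2
    have hT : em d.δ * (x ^ 2 - 8) ^ (N + 1) = (x + 2 * σ) * (x - 2 * σ) *
        ((d.a.map em).eval x * ((d.b.map cj).map em).eval x -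
          ((d.a.map cj).map em).eval x * (d.b.map em).eval x) := by
      rw [hdet, pow_succ]
      linear_combination (em d.δ * (x ^ 2 - 8) ^ N) * h8
    rw [hT, hΔa, hΔb, hΔp, hΔq]
    simp only [eval_mul, eval_sub, eval_X, eval_C]
    unfold Data.g Data.g' at hcross ⊢
    unfold Data.AA
    linear_combination (-1) * hcross
  have hΔ1 : ‖Δa + w * Δb‖ ≤ L1 * ‖y - x‖ := by
    have hwn : ‖w‖ ≤ 3 := by
      have : w = (w - σ) + σ := by ring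
      rw [this]
      refine (norm_add_le _ _).trans ?_
      rw [hnσ]; linarith
    refine (norm_add_le _ _).trans ?_
    rw [norm_mul]
    have e1 := hLa' y x w5.le z5.le
    have e2 := hLb' y x w5.le z5.le
    have e3 : ‖w‖ * ‖Δb‖ ≤ 3 * (Lb * ‖y - x‖) := mul_le_mul hwn e2 (norm_nonneg _) (by norm_num)
    calc ‖Δa‖ + ‖w‖ * ‖Δb‖ ≤ La * ‖y - x‖ + 3 * (Lb * ‖y - x‖) := add_le_add e1 e3
      _ = L1 * ‖y - x‖ := by rw [hL1]; ring
  have hΔ2 : ‖Δp + w * Δq‖ ≤ L2 * ‖y - x‖ := by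
    have hwn : ‖w‖ ≤ 3 := by
      have : w = (w - σ) + σ := by ring
      rw [this]
      refine (norm_add_le _ _).trans ?_
      rw [hnσ]; linarith
    refine (norm_add_le _ _).trans ?_
    rw [norm_mul]
    have e1 := hLp' y x w5.le z5.le
    have e2 := hLq' y x w5.le z5.le
    have e3 : ‖w‖ * ‖Δq‖ ≤ 3 * (Lq * ‖y - x‖) := mul_le_mul hwn e2 (norm_nonneg _) (by norm_num)
    calc ‖Δp‖ + ‖w‖ * ‖Δq‖ ≤ Lp * ‖y - x‖ + 3 * (Lq * ‖y - x‖) := add_le_add e1 e3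
      _ = L2 * ‖y - x‖ := by rw [hL2]; ring
  -- size of x ^ 2 - 8
  have hx8 : ‖x ^ 2 - 8‖ ≤ 35 * ‖z - σ‖ ^ 2 := by
    have h8 : (x ^ 2 - 8 : ℂ) = (x + 2 * σ) * (x - 2 * σ) := by
      linear_combination 4 * hσ2
    have h1 : ‖x - 2 * σ‖ ≤ 7 := by
      refine (norm_sub_le _ _).trans ?_
      rw [norm_mul, hnσ, Complex.norm_ofNat]
      linarith
    have h2 : ‖x + 2 * σ‖ ≤ 5 * ‖z - σ‖ ^ 2 := by
      have h3 := congrArg norm (xv_add hz2)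
      rw [norm_mul, norm_mul, norm_pow] at h3
      have h4 : ‖z - (1 - 2 * (σ : ℂ))‖ ≤ 5 := by
        have : z - (1 - 2 * (σ : ℂ)) = (z - σ) + ((3 * σ - 1 : ℝ) : ℂ) := by push_cast; ring
        rw [this]
        refine (norm_add_le _ _).trans ?_
        have h5 : ‖((3 * σ - 1 : ℝ) : ℂ)‖ = 3 * σ - 1 := by
          rw [Complex.norm_real, Real.norm_of_nonneg]
          have := one_lt_σ
          linarith
        rw [h5]; linarith
      calc ‖x + 2 * σ‖ ≤ ‖z + 2‖ * ‖x + 2 * σ‖ := le_mul_of_one_le_left (norm_nonneg _) hz2n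
        _ = ‖z - σ‖ ^ 2 * ‖z - (1 - 2 * (σ : ℂ))‖ := h3
        _ ≤ ‖z - σ‖ ^ 2 * 5 := mul_le_mul_of_nonneg_left h4 (by positivity)
        _ = 5 * ‖z - σ‖ ^ 2 := by ring
    rw [h8, norm_mul]
    calc ‖x + 2 * σ‖ * ‖x - 2 * σ‖ ≤ (5 * ‖z - σ‖ ^ 2) * 7 :=
          mul_le_mul h2 h1 (norm_nonneg _) (by positivity)
      _ = 35 * ‖z - σ‖ ^ 2 := by ring
  set T := ‖w - z‖ * (‖em d.δ‖ * (35 * ‖z - σ‖ ^ 2) ^ (N + 1)) with hT
  have hmain : ‖y - x‖ * (‖d.AA y w‖ * ‖d.g' x z‖) ≤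
      T + ‖d.g x z‖ * (L2 * ‖y - x‖) + ‖x + 2 * σ‖ * (L1 * ‖y - x‖) * ‖d.g' x z‖ := by
    have h1 := congrArg norm hid
    rw [norm_mul, norm_mul (d.AA y w)] at h1
    rw [h1]
    refine (norm_sub_le _ _).trans ?_
    refine add_le_add ((norm_add_le _ _).trans (add_le_add ?_ ?_)) ?_
    · rw [norm_mul, norm_mul, norm_pow, hT]
      gcongr
    · rw [norm_mul]
      gcongr
    · rw [norm_mul, norm_mul]
      gcongr
  have hsmall1 : ‖d.g x z‖ * (L2 * ‖y - x‖) ≤ ‖A0‖ * ‖G0‖ / 16 * ‖y - x‖ := by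
    have : ‖d.g x z‖ * (L2 * ‖y - x‖) = (L2 * ‖d.g x z‖) * ‖y - x‖ := by ring
    rw [this]
    exact mul_le_mul_of_nonneg_right z3.le (norm_nonneg _)
  have hsmall2 : ‖x + 2 * σ‖ * (L1 * ‖y - x‖) * ‖d.g' x z‖ ≤
      ‖A0‖ / 8 * ‖d.g' x z‖ * ‖y - x‖ := by
    have : ‖x + 2 * σ‖ * (L1 * ‖y - x‖) * ‖d.g' x z‖ =
      (L1 * ‖x + 2 * σ‖) * (‖d.g' x z‖ * ‖y - x‖) := by ring
    rw [this, mul_assoc (‖A0‖ / 8)]
    exact mul_le_mul_of_nonneg_right z4.le (by positivity)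
  have hlow : ‖A0‖ / 2 * (‖d.g' x z‖) * ‖y - x‖ ≤ ‖y - x‖ * (‖d.AA y w‖ * ‖d.g' x z‖) := by
    have : ‖y - x‖ * (‖d.AA y w‖ * ‖d.g' x z‖) = ‖d.AA y w‖ * (‖d.g' x z‖ * ‖y - x‖) := by ring
    rw [this, mul_assoc (‖A0‖ / 2)]
    exact mul_le_mul_of_nonneg_right w1.le (by positivity)
  have hfin : ‖A0‖ * ‖G0‖ / 8 * ‖y - x‖ ≤ T := by
    have hyx := norm_nonneg (y - x)
    have h1 : ‖A0‖ * (‖G0‖ / 2) * ‖y - x‖ ≤ ‖A0‖ * ‖d.g' x z‖ * ‖y - x‖ := by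
      gcongr
    nlinarith
  have hKT : T = ‖em d.δ‖ * 35 ^ (N + 1) * (‖z - σ‖ ^ (2 * (N + 1)) * ‖w - z‖) := by
    rw [hT, mul_pow, ← pow_mul]
    ring
  have hAG : 0 < ‖A0‖ * ‖G0‖ := by positivity
  rw [div_mul_eq_mul_div, div_mul_eq_mul_div, le_div_iff₀ hAG]
  calc ‖y - x‖ * (‖A0‖ * ‖G0‖) = 8 * (‖A0‖ * ‖G0‖ / 8 * ‖y - x‖) := by ring
    _ ≤ 8 * T := by linarith
    _ = 8 * (‖em d.δ‖ * 35 ^ (N + 1)) * ‖z - σ‖ ^ (2 * (N + 1)) * ‖w - z‖ := by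
        rw [hKT]; ring

end data

end Cusp

end Pool.Agent.Lib.MP_625f41_nt
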