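import Pool.Agent.Lib.MP_625f41_nt.CuspG

/-!
# The non-real root near the cusp
-/

open Polynomial Filter Topology

namespace Pool.Agent.Lib.MP_625f41_nt

namespace Cusp

lemma eval_map_em_real (p : A[X]) (t : ℝ) :
    (p.map em).eval (t : ℂ) = (((p.map emR).eval t : ℝ) : ℂ) := by
  have h : p.map em = (p.map emR).map Complex.ofRealHom := by
    rw [Polynomial.map_map]; rfl
  rw [h, eval_map]
  exact eval₂_at_apply Complex.ofRealHom t

section data

variable {N : ℕ} (d : Data N)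

/-- real versions -/
noncomputable def Data.HR : ℝ[X] := d.H.map emR

/-- real version of the conjugate of `M` -/
noncomputable def Data.MR' : ℝ[X] := (d.M.map cj).map emR

lemma MC_real (t : ℝ) : d.MC.eval (t : ℂ) = (((t - σ) ^ 2 * d.HR.eval t : ℝ) : ℂ) := by
  rw [MC_eval, eval_map_em_real]
  push_cast
  rfl

lemma MC'_real (t : ℝ) : d.MC'.eval (t : ℂ) = ((d.MR'.eval t : ℝ) : ℂ) := by
  rw [Data.MC', eval_map_em_real]
  rfl

/-- the sign function -/
noncomputable def Data.GR (t : ℝ) : ℝ := d.HR.eval t * d.MR'.eval t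

lemma GR_σ : d.GR σ ≠ 0 := by
  unfold Data.GR
  refine mul_ne_zero ?_ ?_
  · intro h
    apply H_σ d
    rw [eval_map_em_real]
    have : (d.H.map emR).eval σ = 0 := h
    rw [this]; simp
  · intro h
    apply MC'_σ d
    rw [MC'_real, h]; simp

lemma continuous_GR : Continuous d.GR :=
  (Polynomial.continuous _).mul (Polynomial.continuous _)

lemma e'_sign_even (i : ℕ) : 0 < e' (2 * i + 0) := by
  have h := e_mul_e' (2 * i + 0)
  rw [add_zero, pow_mul] at h
  have h1 : ((-1 : ℝ) ^ 2) ^ i = 1 := by norm_num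
  rw [h1] at h
  have h2 := e_pos (2 * i)
  rw [add_zero]
  by_contra hcon
  push Not at hcon
  nlinarith

lemma e'_sign_odd (i : ℕ) : e' (2 * i + 1) < 0 := by
  have h := e_mul_e' (2 * i + 1)
  rw [pow_succ, pow_mul] at h
  have h1 : ((-1 : ℝ) ^ 2) ^ i = 1 := by norm_num
  rw [h1] at h
  have h2 := e_pos (2 * i + 1)
  by_contra hcon
  push Not at hcon
  nlinarith

theorem near_root : ∃ (c : ℕ) (K2 : ℝ), 0 < K2 ∧ ∀ ρ : ℝ, 0 < ρ → ∀ᶠ i in atTop, ∃ z : ℂ,
    ((d.Q (2 * i + c)).map (Int.castRingHom ℂ)).eval z = 0 ∧ z.im ≠ 0 ∧ ‖z - σ‖ < ρ ∧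
      ‖z - σ‖ ≤ K2 / e (2 * i + c) := by
  have hG := GR_σ d
  obtain ⟨c, hc⟩ : ∃ c : ℕ, ∀ i, e' (2 * i + c) * d.GR σ < 0 := by
    rcases lt_or_gt_of_ne hG with h | h
    · exact ⟨0, fun i => mul_neg_of_pos_of_neg (e'_sign_even i) h⟩
    · exact ⟨1, fun i => mul_neg_of_neg_of_pos (e'_sign_odd i) h⟩
  set h0 := ‖(d.H.map em).eval (σ : ℂ)‖ with hh0
  have h0pos : 0 < h0 := norm_pos_iff.2 (H_σ d)
  set m0 := ‖d.MC'.eval (σ : ℂ)‖ with hm0
  have m0pos : 0 < m0 := norm_pos_iff.2 (MC'_σ d)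
  refine ⟨c, Real.sqrt ((m0 + 1) / (h0 / 2)), Real.sqrt_pos.2 (by positivity), ?_⟩
  intro ρ hρ
  have E1 : ∀ᶠ z in 𝓝 (σ : ℂ), h0 / 2 < ‖(d.H.map em).eval z‖ :=
    ((Polynomial.continuous _).continuousAt.norm).eventually_const_lt (by linarith)
  have E2 : ∀ᶠ z in 𝓝 (σ : ℂ), ‖d.MC'.eval z‖ < m0 + 1 :=
    ((Polynomial.continuous _).continuousAt.norm).eventually_lt_const (by linarith)
  have E3 : ∀ᶠ t in 𝓝 σ, 0 < d.GR t * d.GR σ := by
    have : ContinuousAt (fun t => d.GR t * d.GR σ) σ :=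
      ((continuous_GR d).mul continuous_const).continuousAt
    exact this.eventually_const_lt (by
      have := mul_self_pos.2 hG
      exact this)
  obtain ⟨ρ1, hρ1, hb1⟩ := Metric.eventually_nhds_iff.1 (E1.and E2)
  obtain ⟨ρ2, hρ2, hb2⟩ := Metric.eventually_nhds_iff.1 E3
  set r := min ρ (min ρ1 ρ2) with hr
  have hrpos : 0 < r := lt_min hρ (lt_min hρ1 hρ2)
  obtain ⟨c0, hc0, hlead⟩ := lead_lower d
  have hbig : ∀ᶠ j in atTop, m0 / (2 * σ) / (c0 * r ^ (N + 2)) < e j :=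
    tendsto_e.eventually_gt_atTop _
  have htend : Tendsto (fun i : ℕ => 2 * i + c) atTop atTop := by
    refine tendsto_atTop_mono (fun i => ?_) tendsto_id
    simp only [id]
    omega
  filter_upwards [htend.eventually hlead, htend.eventually hbig] with i hi1 hi2
  obtain ⟨hdeg, hlc⟩ := hi1
  set j := 2 * i + c with hj
  set p := (d.Q j).map (Int.castRingHom ℂ) with hp
  have hpdeg : p.natDegree = N + 2 := by
    rw [hp, natDegree_map_eq_of_injective (RingHom.injective_int _), hdeg]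
  have hplc : ‖p.leadingCoeff‖ = |(((d.Q j).leadingCoeff : ℤ) : ℝ)| := by
    rw [hp, leadingCoeff_map_of_injective (RingHom.injective_int _)]
    simp
  have hσpos := σ_pos
  have hnσ : ‖(σ : ℂ)‖ = σ := by
    rw [Complex.norm_real, Real.norm_of_nonneg hσpos.le]
  have hpσ : ‖p.eval (σ : ℂ)‖ = (e j)⁻¹ * (m0 / (2 * σ)) := by
    have h1 := congrArg norm (eval_Q d j (σ : ℂ))
    rw [MC_eval, sub_self, zero_pow two_ne_zero, zero_mul, mul_zero, zero_sub, norm_neg, norm_mul,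
      norm_mul, norm_mul, Complex.norm_ofNat, hnσ, Complex.norm_real, Real.norm_eq_abs,
      abs_e'] at h1
    field_simp
    field_simp at h1
    rw [hm0]
    linear_combination h1
  have hsmall : ‖p.eval (σ : ℂ)‖ < ‖p.leadingCoeff‖ * r ^ (N + 2) := by
    rw [hpσ, hplc]
    have hrp : 0 < r ^ (N + 2) := pow_pos hrpos _
    rw [div_lt_iff₀ (by positivity)] at hi2
    have he1 := one_le_e j
    have hepos := e_pos j
    calc (e j)⁻¹ * (m0 / (2 * σ)) ≤ 1 * (m0 / (2 * σ)) := by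
          apply mul_le_mul_of_nonneg_right (inv_le_one_of_one_le₀ he1)
          positivity
      _ < e j * (c0 * r ^ (N + 2)) := by rw [one_mul]; exact hi2
      _ = (c0 * e j) * r ^ (N + 2) := by ring
      _ ≤ _ := mul_le_mul_of_nonneg_right hlc hrp.le
  obtain ⟨z, hz0, hzr⟩ := exists_root_near hpdeg hrpos hsmall
  have hzρ : ‖z - σ‖ < ρ := hzr.trans_le (min_le_left _ _)
  have hzρ1 : dist z (σ : ℂ) < ρ1 := by
    rw [dist_eq_norm]
    exact hzr.trans_le ((min_le_right _ _).trans (min_le_left _ _))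
  have hzρ2 : ‖z - σ‖ < ρ2 := hzr.trans_le ((min_le_right _ _).trans (min_le_right _ _))
  obtain ⟨b1, b2⟩ := hb1 hzρ1
  have hrel := (eval_Q_eq_zero_iff d j z).1 hz0
  refine ⟨z, hz0, ?_, hzρ, ?_⟩
  · -- non-real
    intro him
    have hzt : z = ((z.re : ℝ) : ℂ) := by
      apply Complex.ext <;> simp [him]
    set t := z.re with ht
    rw [hzt, MC_real, MC'_real] at hrel
    have hrel' : e j * ((t - σ) ^ 2 * d.HR.eval t) = e' j * d.MR'.eval t := by
      exact_mod_cast hrel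
    have hdist : dist t σ < ρ2 := by
      rw [Real.dist_eq]
      rw [hzt, ← Complex.ofReal_sub, Complex.norm_real, Real.norm_eq_abs] at hzρ2
      exact hzρ2
    have hsign := hb2 hdist
    have hcj := hc i
    rw [← hj] at hcj
    have h1 : e j * (t - σ) ^ 2 * (d.GR t * d.GR σ) = (e' j * d.GR σ) * d.MR'.eval t ^ 2 := by
      have hGt : d.GR t = d.HR.eval t * d.MR'.eval t := rfl
      rw [hGt]
      linear_combination (d.MR'.eval t * d.GR σ) * hrel'
    have h2 : 0 ≤ e j * (t - σ) ^ 2 * (d.GR t * d.GR σ) := by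
      have := e_pos j
      positivity
    have h3 : d.MR'.eval t ≠ 0 := by
      intro h
      have hGt : d.GR t = d.HR.eval t * d.MR'.eval t := rfl
      rw [hGt, h, mul_zero, zero_mul] at hsign
      exact lt_irrefl _ hsign
    have h4 : (e' j * d.GR σ) * d.MR'.eval t ^ 2 < 0 :=
      mul_neg_of_neg_of_pos hcj (by positivity)
    linarith
  · have hepos := e_pos j
    rw [le_div_iff₀ hepos]
    apply Real.le_sqrt_of_sq_le
    rw [le_div_iff₀ (by positivity)]
    have h1 := congrArg norm hrel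
    rw [MC_eval, norm_mul, norm_mul, norm_mul, norm_pow, Complex.norm_real, Complex.norm_real,
      Real.norm_eq_abs, Real.norm_eq_abs, abs_of_pos hepos, abs_e'] at h1
    have h2 : e j * (‖z - σ‖ ^ 2 * (h0 / 2)) ≤ (e j)⁻¹ * (m0 + 1) := by
      calc e j * (‖z - σ‖ ^ 2 * (h0 / 2)) ≤ e j * (‖z - σ‖ ^ 2 * ‖(d.H.map em).eval z‖) := by
            gcongr
        _ = (e j)⁻¹ * ‖d.MC'.eval z‖ := h1
        _ ≤ (e j)⁻¹ * (m0 + 1) := by gcongr
    calc (‖z - σ‖ * e j) ^ 2 * (h0 / 2) = e j * (e j * (‖z - σ‖ ^ 2 * (h0 / 2))) := by ring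
      _ ≤ e j * ((e j)⁻¹ * (m0 + 1)) := mul_le_mul_of_nonneg_left h2 hepos.le
      _ = m0 + 1 := by
          rw [← mul_assoc, mul_inv_cancel₀ hepos.ne', one_mul]

end data

end Cusp

end Pool.Agent.Lib.MP_625f41_nt
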