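import Pool.Agent.Lib.MP_625f41_nt.Basic
import Pool.Agent.Lib.MP_625f41_nt.CuspH

/-!
# Irreducibility of infinitely many `Q_j`
-/

open Polynomial Filter Topology

namespace Pool.Agent.Lib.MP_625f41_nt

namespace Cusp

/-- the complex version of an integer polynomial -/
noncomputable abbrev toC (p : ℤ[X]) : ℂ[X] := p.map (Int.castRingHom ℂ)

lemma eval_le_mahler {n : ℕ} {p : ℂ[X]} (hp : p.natDegree ≤ n) {w : ℂ} (hw : ‖w‖ ≤ 2) :
    ‖p.eval w‖ ≤ (n + 1) * 4 ^ n * p.mahlerMeasure := by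
  rw [eval_eq_sum_range' (Nat.lt_succ_of_le hp)]
  refine (norm_sum_le _ _).trans ?_
  have h1 : ∀ i ∈ Finset.range (n + 1), ‖p.coeff i * w ^ i‖ ≤ 4 ^ n * p.mahlerMeasure := by
    intro i hi
    have hi' : i ≤ n := by simpa [Nat.lt_succ_iff] using hi
    rw [norm_mul, norm_pow]
    have hM := p.mahlerMeasure_nonneg
    have h2 : ‖p.coeff i‖ ≤ 2 ^ n * p.mahlerMeasure := by
      refine (norm_coeff_le_choose_mul_mahlerMeasure i p).trans ?_
      refine mul_le_mul_of_nonneg_right ?_ hM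
      have h3 : (p.natDegree.choose i : ℝ) ≤ (2 : ℝ) ^ p.natDegree := by
        exact_mod_cast Nat.choose_le_two_pow _ _
      exact h3.trans (pow_le_pow_right₀ (by norm_num) hp)
    have h4 : ‖w‖ ^ i ≤ 2 ^ n :=
      (pow_le_pow_left₀ (norm_nonneg _) hw i).trans (pow_le_pow_right₀ (by norm_num) hi')
    calc ‖p.coeff i‖ * ‖w‖ ^ i ≤ (2 ^ n * p.mahlerMeasure) * 2 ^ n :=
          mul_le_mul h2 h4 (by positivity) (by positivity)
      _ = 4 ^ n * p.mahlerMeasure := by
          rw [show (4 : ℝ) = 2 * 2 by norm_num, mul_pow]; ring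
  refine (Finset.sum_le_sum h1).trans ?_
  rw [Finset.sum_const, Finset.card_range, nsmul_eq_mul]
  push_cast
  linarith

lemma toC_eq (p : ℤ[X]) : toC p = (p.map (Int.castRingHom A)).map em := by
  rw [toC, Polynomial.map_map]
  congr 1
  exact RingHom.ext_int _ _

lemma norm_lower {F : ℤ[X]} (h : (toC F).eval (σ : ℂ) ≠ 0) :
    1 ≤ ‖(toC F).eval (σ : ℂ)‖ * ‖(toC F).eval (-(σ : ℂ))‖ := by
  set x : A := (F.map (Int.castRingHom A)).eval s with hx
  have h1 : (toC F).eval (σ : ℂ) = em x := by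
    rw [toC_eq, ← em_s, eval_map_em]
  have h2 : (toC F).eval (-(σ : ℂ)) = em (cj x) := by
    have h3 : cj x = (F.map (Int.castRingHom A)).eval (-s) := by
      have h4 : (F.map (Int.castRingHom A)).map cj = F.map (Int.castRingHom A) := by
        rw [Polynomial.map_map]
        congr 1
      rw [hx, ← eval_map_cj, h4, cj_s]
    rw [h3, toC_eq, ← em_s, ← map_neg, eval_map_em]
  have hx0 : x ≠ 0 := by
    intro h0
    apply h
    rw [h1, h0, map_zero]
  have h5 := norm_ne_zero hx0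
  rw [h1, h2, em_eq_ofReal, em_eq_ofReal, Complex.norm_real, Complex.norm_real, ← norm_mul,
    ← norm_eq, Real.norm_eq_abs]
  exact_mod_cast Int.one_le_abs h5

section data

variable {N : ℕ} (d : Data N)

/-- a constant bounding the coefficients -/
noncomputable def Data.K4 : ℝ :=
  1 + ∑ i ∈ Finset.range (N + 3), (|emR (d.M.coeff i)| + |emR (cj (d.M.coeff i))|)

lemma K4_pos : 0 < d.K4 := by
  unfold Data.K4
  have : 0 ≤ ∑ i ∈ Finset.range (N + 3), (|emR (d.M.coeff i)| + |emR (cj (d.M.coeff i))|) :=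
    Finset.sum_nonneg fun i _ => by positivity
  linarith

lemma coeff_Q_le (j i : ℕ) : |(((d.Q j).coeff i : ℤ) : ℝ)| ≤ d.K4 * e j := by
  by_cases hi : i < N + 3
  · have h2 := emR_two_σ_im (u ^ j * d.M.coeff i)
    rw [map_mul emR, map_mul cj, map_mul emR, emR_pow, emR_cj_pow] at h2
    rw [coeff_Q]
    have hσ := one_lt_σ
    have h3 : 2 * σ * |(((u ^ j * d.M.coeff i).im : ℤ) : ℝ)| =
        |e j * emR (d.M.coeff i) - e' j * emR (cj (d.M.coeff i))| := by
      rw [← h2, abs_mul, abs_of_pos (by positivity : 0 < 2 * σ)]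
    have h4 : |e j * emR (d.M.coeff i) - e' j * emR (cj (d.M.coeff i))| ≤
        e j * (|emR (d.M.coeff i)| + |emR (cj (d.M.coeff i))|) := by
      refine (abs_sub _ _).trans ?_
      rw [abs_mul, abs_mul, abs_of_pos (e_pos j), abs_e', mul_add]
      have h5 : (e j)⁻¹ ≤ e j := (inv_le_one_of_one_le₀ (one_le_e j)).trans (one_le_e j)
      have h6 := mul_le_mul_of_nonneg_right h5 (abs_nonneg (emR (cj (d.M.coeff i))))
      linarith
    have h7 : |emR (d.M.coeff i)| + |emR (cj (d.M.coeff i))| ≤ d.K4 := by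
      unfold Data.K4
      have : |emR (d.M.coeff i)| + |emR (cj (d.M.coeff i))| ≤
          ∑ i ∈ Finset.range (N + 3), (|emR (d.M.coeff i)| + |emR (cj (d.M.coeff i))|) :=
        Finset.single_le_sum
          (f := fun i => |emR (d.M.coeff i)| + |emR (cj (d.M.coeff i))|)
          (fun i _ => by positivity) (Finset.mem_range.2 hi)
      linarith
    have h8 : 0 ≤ |(((u ^ j * d.M.coeff i).im : ℤ) : ℝ)| := abs_nonneg _
    have hepos := e_pos j
    have h9 := mul_le_mul_of_nonneg_left h7 hepos.le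
    nlinarith
  · have : (d.Q j).coeff i = 0 :=
      coeff_eq_zero_of_natDegree_lt (lt_of_le_of_lt (natDegree_Q_le d j) (by omega))
    rw [this]
    simp only [Int.cast_zero, abs_zero]
    exact mul_nonneg (K4_pos d).le (e_pos j).le

lemma mahler_Q_le (j : ℕ) : (toC (d.Q j)).mahlerMeasure ≤ (N + 3) * (d.K4 * e j) := by
  refine (mahlerMeasure_le_sum_norm_coeff _).trans ?_
  have hdeg : (toC (d.Q j)).natDegree < N + 3 :=
    lt_of_le_of_lt (natDegree_map_le.trans (natDegree_Q_le d j)) (by omega)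
  rw [sum_over_range' _ (fun n => norm_zero) (N + 3) hdeg]
  have h1 : ∀ i ∈ Finset.range (N + 3), ‖(toC (d.Q j)).coeff i‖ ≤ d.K4 * e j := by
    intro i _
    rw [toC, coeff_map]
    have := coeff_Q_le d j i
    simpa using this
  refine (Finset.sum_le_sum h1).trans ?_
  rw [Finset.sum_const, Finset.card_range, nsmul_eq_mul]
  push_cast
  exact le_rfl

lemma conj_root {F : ℤ[X]} {z : ℂ} (h : (toC F).eval z = 0) :
    (toC F).eval ((starRingEnd ℂ) z) = 0 := by
  have h1 : (toC F).map (starRingEnd ℂ) = toC F := by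
    rw [toC, Polynomial.map_map]
    congr 1
    exact RingHom.ext_int _ _
  rw [← h1, eval_map, eval₂_at_apply, h, map_zero]

/-- a factor with a pair of complex conjugate roots close to `√2` has large Mahler measure -/
lemma mahler_lower {n : ℕ} {F : ℤ[X]} (hn : F.natDegree ≤ n) {z : ℂ} {r : ℝ}
    (hσF : (toC F).eval (σ : ℂ) ≠ 0) (hz : (toC F).eval z = 0) (him : z.im ≠ 0)
    (hr : ‖z - σ‖ ≤ r) :
    1 ≤ r ^ 2 * ((n + 1) * 4 ^ n * (toC F).mahlerMeasure) ^ 2 := by
  have hr0 : 0 ≤ r := (norm_nonneg _).trans hr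
  have hz' := conj_root hz
  have hne : z ≠ (starRingEnd ℂ) z := by
    intro h
    apply him
    have := congrArg Complex.im h
    rw [Complex.conj_im] at this
    linarith
  have hF0 : toC F ≠ 0 := by
    intro h
    apply hσF
    rw [h, eval_zero]
  obtain ⟨F1, hF1⟩ := dvd_iff_isRoot.2 hz
  have hz'' : F1.eval ((starRingEnd ℂ) z) = 0 := by
    rw [hF1, eval_mul, eval_sub, eval_X, eval_C] at hz'
    exact (mul_eq_zero.1 hz').resolve_left (sub_ne_zero.2 hne.symm)
  obtain ⟨F2, hF2⟩ := dvd_iff_isRoot.2 hz''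
  have hF2deg : F2.natDegree ≤ n := by
    have h1 : F1.natDegree ≤ n := by
      rcases eq_or_ne F1 0 with h | h
      · rw [h]; simp
      · have := natDegree_mul (X_sub_C_ne_zero z) h
        rw [← hF1, natDegree_X_sub_C] at this
        have h2 : (toC F).natDegree ≤ n := natDegree_map_le.trans hn
        omega
    rcases eq_or_ne F2 0 with h | h
    · rw [h]; simp
    · have := natDegree_mul (X_sub_C_ne_zero ((starRingEnd ℂ) z)) h
      rw [← hF2, natDegree_X_sub_C] at this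
      omega
  have hM : F2.mahlerMeasure ≤ (toC F).mahlerMeasure := by
    rw [hF1, hF2, mahlerMeasure_mul, mahlerMeasure_mul, mahlerMeasure_X_sub_C,
      mahlerMeasure_X_sub_C]
    have h0 := F2.mahlerMeasure_nonneg
    have h1 : (1 : ℝ) ≤ max 1 ‖z‖ := le_max_left _ _
    have h2 : (1 : ℝ) ≤ max 1 ‖(starRingEnd ℂ) z‖ := le_max_left _ _
    calc F2.mahlerMeasure = 1 * (1 * F2.mahlerMeasure) := by ring
      _ ≤ max 1 ‖z‖ * (max 1 ‖(starRingEnd ℂ) z‖ * F2.mahlerMeasure) := by gcongr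
  have hnσ : ‖(σ : ℂ)‖ = σ := by
    rw [Complex.norm_real, Real.norm_of_nonneg σ_pos.le]
  have hσ2 : ‖(σ : ℂ)‖ ≤ 2 := by rw [hnσ]; have := σ_lt; linarith
  have h1 : ‖(toC F).eval (σ : ℂ)‖ ≤ r ^ 2 * ((n + 1) * 4 ^ n * (toC F).mahlerMeasure) := by
    rw [hF1, hF2, eval_mul, eval_mul, eval_sub, eval_sub, eval_X, eval_C, eval_C, norm_mul,
      norm_mul]
    have e1 : ‖(σ : ℂ) - z‖ ≤ r := by rw [norm_sub_rev]; exact hr
    have e2 : ‖(σ : ℂ) - (starRingEnd ℂ) z‖ ≤ r := by
      have : (σ : ℂ) - (starRingEnd ℂ) z = (starRingEnd ℂ) ((σ : ℂ) - z) := by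
        rw [map_sub, Complex.conj_ofReal]
      rw [this, RCLike.norm_conj]
      exact e1
    have e3 : ‖F2.eval (σ : ℂ)‖ ≤ (n + 1) * 4 ^ n * (toC F).mahlerMeasure := by
      refine (eval_le_mahler hF2deg hσ2).trans ?_
      gcongr
    rw [← hF2, ← hF1]
    calc ‖(σ : ℂ) - z‖ * (‖(σ : ℂ) - (starRingEnd ℂ) z‖ * ‖F2.eval (σ : ℂ)‖)
        ≤ r * (r * ((n + 1) * 4 ^ n * (toC F).mahlerMeasure)) := by gcongr
      _ = _ := by ring
  have h2 : ‖(toC F).eval (-(σ : ℂ))‖ ≤ (n + 1) * 4 ^ n * (toC F).mahlerMeasure :=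
    eval_le_mahler (natDegree_map_le.trans hn) (by rw [norm_neg]; exact hσ2)
  have h3 := norm_lower hσF
  have h4 := (toC F).mahlerMeasure_nonneg
  calc 1 ≤ ‖(toC F).eval (σ : ℂ)‖ * ‖(toC F).eval (-(σ : ℂ))‖ := h3
    _ ≤ (r ^ 2 * ((n + 1) * 4 ^ n * (toC F).mahlerMeasure)) *
        ((n + 1) * 4 ^ n * (toC F).mahlerMeasure) := by gcongr
    _ = _ := by ring

lemma toC_mul (p q : ℤ[X]) : toC (p * q) = toC p * toC q := Polynomial.map_mul _

lemma one_le_mahler {p : ℤ[X]} (hp : p ≠ 0) : 1 ≤ (toC p).mahlerMeasure := by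
  apply one_le_mahlerMeasure_of_one_le_norm_leadingCoeff
  rw [toC, leadingCoeff_map_of_injective (RingHom.injective_int _)]
  have h : p.leadingCoeff ≠ 0 := leadingCoeff_ne_zero.2 hp
  have := Int.one_le_abs h
  simp only [eq_intCast, Complex.norm_intCast]
  exact_mod_cast this

/-- A nontrivial factorisation yields a factor of bounded height. -/
lemma bounded_factor (K2 : ℝ) (hK2 : 0 < K2) : ∃ H : ℕ, ∀ j : ℕ, ∀ z : ℂ,
    (d.Q j).natDegree = N + 2 → (toC (d.Q j)).eval z = 0 → z.im ≠ 0 → ‖z - σ‖ ≤ K2 / e j →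
    ¬ Irreducible ((d.Q j).map (Int.castRingHom ℚ)) →
    ∃ B : ℤ[X], B.natDegree ≤ N + 2 ∧ height B ≤ H ∧ 1 ≤ B.natDegree ∧ B ∣ d.Q j := by
  set n := N + 2 with hn
  set Cn : ℝ := (n + 1) * 4 ^ n with hCn
  have hCnpos : 0 < Cn := by positivity
  set K3 : ℝ := (N + 3) * d.K4 * (K2 * Cn) with hK3
  have hK4 := K4_pos d
  refine ⟨⌈2 ^ n * K3⌉₊, ?_⟩
  intro j z hdeg hz him hr hirr
  set Q := d.Q j with hQ
  have hQ0 : Q ≠ 0 := by
    intro h; rw [h, natDegree_zero] at hdeg; omega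
  set P := Q.primPart with hP
  have hPprim : P.IsPrimitive := isPrimitive_primPart Q
  have hQP : Q = C Q.content * P := eq_C_content_mul_primPart Q
  have hcont : Q.content ≠ 0 := by rwa [Ne, content_eq_zero_iff]
  have hPdeg : P.natDegree = n := by rw [hP, natDegree_primPart, hdeg]
  have hP0 : P ≠ 0 := hPprim.ne_zero
  have hPirr : ¬ Irreducible P := by
    intro h
    apply hirr
    rw [IsPrimitive.Int.irreducible_iff_irreducible_map_cast hPprim] at h
    have h1 : Q.map (Int.castRingHom ℚ) = C (Q.content : ℚ) * P.map (Int.castRingHom ℚ) := by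
      conv_lhs => rw [hQP]
      rw [Polynomial.map_mul, map_C]
      rfl
    rw [h1]
    have hu : IsUnit (C (Q.content : ℚ)) := by
      rw [isUnit_C, isUnit_iff_ne_zero]
      exact_mod_cast hcont
    exact (irreducible_isUnit_mul hu).2 h
  have hPunit : ¬ IsUnit P := by
    intro h
    have := natDegree_eq_zero_of_isUnit h
    omega
  -- a factorisation of P
  obtain ⟨A', B', hA'unit, hB'unit, hAB⟩ : ∃ A' B' : ℤ[X], ¬ IsUnit A' ∧ ¬ IsUnit B' ∧
      P = A' * B' := by
    by_contra hcon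
    push Not at hcon
    apply hPirr
    refine ⟨hPunit, ?_⟩
    intro x y hxy
    by_contra hxy'
    push Not at hxy'
    exact hcon x y hxy'.1 hxy'.2 hxy
  have hdegpos : ∀ x : ℤ[X], ¬ IsUnit x → x ∣ P → 1 ≤ x.natDegree := by
    intro x hx hxP
    by_contra hcon
    have h0 : x.natDegree = 0 := by omega
    obtain ⟨c, hc⟩ := natDegree_eq_zero.1 h0
    apply hx
    rw [← hc]
    rw [isPrimitive_iff_isUnit_of_C_dvd] at hPprim
    exact isUnit_C.2 (hPprim c (by rw [hc]; exact hxP))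
  have hPz : (toC P).eval z = 0 := by
    rw [hQP, toC_mul, eval_mul] at hz
    refine (mul_eq_zero.1 hz).resolve_left ?_
    rw [toC, map_C, eval_C]
    simpa using hcont
  have hPσ : (toC P).eval (σ : ℂ) ≠ 0 := by
    intro h
    apply eval_Q_σ d j
    have : (toC Q).eval (σ : ℂ) = 0 := by
      rw [hQP, toC_mul, eval_mul, h, mul_zero]
    exact this
  have hMP : (toC P).mahlerMeasure ≤ (N + 3) * (d.K4 * e j) := by
    refine le_trans ?_ (mahler_Q_le d j)
    have : (toC Q).mahlerMeasure = (toC (C Q.content)).mahlerMeasure * (toC P).mahlerMeasure := by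
      conv_lhs => rw [hQP]
      rw [toC_mul, mahlerMeasure_mul]
    rw [← hQ, this]
    have h1 : 1 ≤ (toC (C Q.content)).mahlerMeasure := one_le_mahler (by
      rw [Ne, C_eq_zero]; exact hcont)
    exact le_mul_of_one_le_left (mahlerMeasure_nonneg _) h1
  -- symmetric treatment
  have key : ∀ F G : ℤ[X], P = F * G → ¬ IsUnit F → ¬ IsUnit G → (toC F).eval z = 0 →
      ∃ B : ℤ[X], B.natDegree ≤ n ∧ height B ≤ ⌈2 ^ n * K3⌉₊ ∧ 1 ≤ B.natDegree ∧ B ∣ Q := by
    intro F G hFG hF hG hFz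
    have hF0 : F ≠ 0 := by rintro rfl; rw [zero_mul] at hFG; exact hP0 hFG
    have hG0 : G ≠ 0 := by rintro rfl; rw [mul_zero] at hFG; exact hP0 hFG
    have hdegs : F.natDegree + G.natDegree = n := by
      rw [← natDegree_mul hF0 hG0, ← hFG, hPdeg]
    have hFσ : (toC F).eval (σ : ℂ) ≠ 0 := by
      intro h
      apply hPσ
      rw [hFG, toC_mul, eval_mul, h, zero_mul]
    have h1 := mahler_lower (n := n) (by omega) hFσ hFz him hr
    have hepos := e_pos j
    have hMF := (toC F).mahlerMeasure_nonneg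
    have h2 : e j ≤ K2 * Cn * (toC F).mahlerMeasure := by
      have h3 : (1 : ℝ) ≤ (K2 / e j * (Cn * (toC F).mahlerMeasure)) ^ 2 := by
        rw [mul_pow]; exact h1
      have h4 : (0 : ℝ) ≤ K2 / e j * (Cn * (toC F).mahlerMeasure) := by positivity
      have h5 : (1 : ℝ) ≤ K2 / e j * (Cn * (toC F).mahlerMeasure) := by
        by_contra hcon
        push Not at hcon
        nlinarith
      rw [div_mul_eq_mul_div, le_div_iff₀ hepos] at h5
      linarith
    have h6 : (toC F).mahlerMeasure * (toC G).mahlerMeasure ≤ (N + 3) * (d.K4 * e j) := by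
      rw [← mahlerMeasure_mul, ← toC_mul, ← hFG]
      exact hMP
    have hMG := (toC G).mahlerMeasure_nonneg
    have h7 : (toC G).mahlerMeasure ≤ K3 := by
      have h8 : e j * (toC G).mahlerMeasure ≤ e j * K3 := by
        calc e j * (toC G).mahlerMeasure ≤ K2 * Cn * (toC F).mahlerMeasure *
              (toC G).mahlerMeasure := by gcongr
          _ = K2 * Cn * ((toC F).mahlerMeasure * (toC G).mahlerMeasure) := by ring
          _ ≤ K2 * Cn * ((N + 3) * (d.K4 * e j)) := by gcongr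
          _ = e j * K3 := by rw [hK3]; ring
      exact le_of_mul_le_mul_left h8 hepos
    refine ⟨G, by omega, ?_, hdegpos G hG ⟨F, by rw [hFG]; ring⟩, ?_⟩
    · rw [height_le_iff]
      intro i
      have h9 : ‖(toC G).coeff i‖ ≤ 2 ^ n * K3 := by
        refine (norm_coeff_le_choose_mul_mahlerMeasure i _).trans ?_
        have h10 : ((toC G).natDegree.choose i : ℝ) ≤ (2 : ℝ) ^ (toC G).natDegree := by
          exact_mod_cast Nat.choose_le_two_pow _ _
        have h11 : (toC G).natDegree ≤ n := natDegree_map_le.trans (by omega)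
        have h12 : ((toC G).natDegree.choose i : ℝ) ≤ 2 ^ n :=
          h10.trans (pow_le_pow_right₀ (by norm_num) h11)
        exact mul_le_mul h12 h7 hMG (by positivity)
      rw [toC, coeff_map] at h9
      have h13 : ((G.coeff i).natAbs : ℝ) ≤ 2 ^ n * K3 := by
        rw [Nat.cast_natAbs]
        simpa using h9
      exact_mod_cast h13.trans (Nat.le_ceil _)
    · rw [hQP, hFG]
      exact ⟨C Q.content * F, by ring⟩
  rw [hAB, toC_mul, eval_mul] at hPz
  rcases mul_eq_zero.1 hPz with h | h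
  · exact key A' B' hAB hA'unit hB'unit h
  · exact key B' A' (by rw [hAB]; ring) hB'unit hA'unit h

/-- two different `Q_j` have no common nonconstant factor -/
lemma no_common_factor {B : ℤ[X]} (hB : 1 ≤ B.natDegree) {j k : ℕ} (hjk : j < k)
    (h1 : B ∣ d.Q j) (h2 : B ∣ d.Q k) : False := by
  obtain ⟨z, hz⟩ := IsAlgClosed.exists_root (toC B) (by
    rw [toC, degree_map_eq_of_injective (RingHom.injective_int _)]
    intro h
    have h' : B.natDegree = 0 := natDegree_eq_of_degree_eq_some h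
    omega)
  have hz1 : (toC (d.Q j)).eval z = 0 := by
    obtain ⟨G, hG⟩ := h1
    rw [hG, toC_mul, eval_mul, hz.eq_zero, zero_mul]
  have hz2 : (toC (d.Q k)).eval z = 0 := by
    obtain ⟨G, hG⟩ := h2
    rw [hG, toC_mul, eval_mul, hz.eq_zero, zero_mul]
  have r1 := (eval_Q_eq_zero_iff d j z).1 hz1
  have r2 := (eval_Q_eq_zero_iff d k z).1 hz2
  have hej := e_pos j
  have hek := e_pos k
  have hlt : e j < e k := pow_lt_pow_right₀ (by have := σ_pos; linarith) hjk
  have hne : e j * e' k - e k * e' j ≠ 0 := by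
    intro h
    have h3 : |e j * e' k| = |e k * e' j| := by rw [sub_eq_zero.1 h]
    rw [abs_mul, abs_mul, abs_e', abs_e', abs_of_pos hej, abs_of_pos hek] at h3
    have h4 : e j * (e k)⁻¹ < 1 := by
      rw [← div_eq_mul_inv, div_lt_one hek]; exact hlt
    have h5 : 1 < e k * (e j)⁻¹ := by
      rw [← div_eq_mul_inv, one_lt_div hej]; exact hlt
    linarith
  have h6 : ((e j * e' k - e k * e' j : ℝ) : ℂ) * d.MC.eval z = 0 := by
    push_cast
    linear_combination (e' k : ℂ) * r1 - (e' j : ℂ) * r2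
  have h7 : d.MC.eval z = 0 := by
    refine (mul_eq_zero.1 h6).resolve_left ?_
    exact_mod_cast hne
  have h8 : d.MC'.eval z = 0 := by
    rw [h7, mul_zero] at r1
    refine (mul_eq_zero.1 r1.symm).resolve_left ?_
    exact_mod_cast e'_ne_zero j
  exact no_common d h7 h8

/-- **Infinitely many `Q_j` are irreducible** and have a non-real root close to `√2`. -/
theorem irreducible_Q : ∃ (c : ℕ) (K2 : ℝ), 0 < K2 ∧ ∀ ρ : ℝ, 0 < ρ → ∃ᶠ i in atTop,
    Irreducible ((d.Q (2 * i + c)).map (Int.castRingHom ℚ)) ∧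
    (d.Q (2 * i + c)).natDegree = N + 2 ∧ (toC (d.Q (2 * i + c))).eval (-2) ≠ 0 ∧ ∃ z : ℂ,
    (toC (d.Q (2 * i + c))).eval z = 0 ∧ z.im ≠ 0 ∧ ‖z - σ‖ < ρ ∧
      ‖z - σ‖ ≤ K2 / e (2 * i + c) := by
  obtain ⟨c, K2, hK2, hnear⟩ := near_root d
  refine ⟨c, K2, hK2, ?_⟩
  intro ρ hρ
  have htend : Tendsto (fun i : ℕ => 2 * i + c) atTop atTop := by
    refine tendsto_atTop_mono (fun i => ?_) tendsto_id
    simp only [id]
    omega
  obtain ⟨c0, hc0, hlead⟩ := lead_lower d
  have E := (hnear ρ hρ).and ((htend.eventually hlead).and (htend.eventually (Q_pole d)))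
  -- it suffices to show that irreducibility holds frequently
  suffices hfreq : ∃ᶠ i in atTop, Irreducible ((d.Q (2 * i + c)).map (Int.castRingHom ℚ)) by
    refine (hfreq.and_eventually E).mono ?_
    rintro i ⟨hirr, hz, ⟨hdeg, _⟩, hpole⟩
    exact ⟨hirr, hdeg, hpole, hz⟩
  rw [Filter.frequently_atTop]
  by_contra hcon
  push Not at hcon
  obtain ⟨I, hI⟩ := hcon
  obtain ⟨I', hI'⟩ := eventually_atTop.1 E
  obtain ⟨H, hH⟩ := bounded_factor d K2 hK2
  have hB : ∀ i : ℕ, ∃ B : ℤ[X], (B.natDegree ≤ N + 2 ∧ height B ≤ H) ∧ 1 ≤ B.natDegree ∧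
      B ∣ d.Q (2 * (i + max I I') + c) := by
    intro i
    obtain ⟨⟨z, hz, him, _, hr⟩, ⟨hdeg, _⟩, _⟩ := hI' (i + max I I')
      ((le_max_right I I').trans (Nat.le_add_left _ _))
    obtain ⟨B, h1, h2, h3, h4⟩ := hH (2 * (i + max I I') + c) z hdeg hz him hr
      (hI _ ((le_max_left I I').trans (Nat.le_add_left _ _)))
    exact ⟨B, ⟨h1, h2⟩, h3, h4⟩
  choose B hB1 hB2 hB3 using hB
  have hfin := finite_height_le (N + 2) H
  have : Finite {P : ℤ[X] | P.natDegree ≤ N + 2 ∧ height P ≤ H} := hfin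
  obtain ⟨x, y, hxy, hf⟩ := Finite.exists_ne_map_eq_of_infinite
    (fun i : ℕ => (⟨B i, hB1 i⟩ : {P : ℤ[X] | P.natDegree ≤ N + 2 ∧ height P ≤ H}))
  have hf' : B x = B y := congrArg Subtype.val hf
  rcases lt_or_gt_of_ne hxy with h | h
  · exact no_common_factor d (hB2 x) (by omega : 2 * (x + max I I') + c < 2 * (y + max I I') + c)
      (hB3 x) (hf' ▸ hB3 y)
  · exact no_common_factor d (hB2 y) (by omega : 2 * (y + max I I') + c < 2 * (x + max I I') + c)
      (hB3 y) (hf' ▸ hB3 x)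

end data

end Cusp

end Pool.Agent.Lib.MP_625f41_nt
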