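import Pool.Agent.Lib.MP_625f41_nt.CuspI

/-!
# The norm polynomial `P(x) = prod (x - X(z_i))`

For `Q ∈ ℤ[z]` let `PP Q ∈ ℤ[x]` be the norm of `Q(z)` from `ℚ(z)` to `ℚ(x)`,
`x = U(z)/V(z)`, computed as the determinant of `Q` evaluated at a companion matrix.
-/

open Polynomial Filter Topology

namespace Pool.Agent.Lib.MP_625f41_nt

namespace Cusp

section matrix

variable (R : Type*) [CommRing R]

/-- companion matrix of `z^3 - z^2 - (6 + x) z - (2 + 2 x)` -/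
noncomputable def Mx : Matrix (Fin 3) (Fin 3) R[X] :=
  !![0, 0, 2 + 2 * X; 1, 0, 6 + X; 0, 1, 1]

end matrix

/-- the norm polynomial -/
noncomputable def PP (Q : ℤ[X]) : ℤ[X] := (aeval (Mx ℤ) Q).det

/-- complex version, as a monoid homomorphism -/
noncomputable def PC : ℂ[X] →* ℂ[X] :=
  (Matrix.detMonoidHom).comp ((aeval (R := ℂ) (Mx ℂ)).toMonoidHom)

lemma PC_apply (p : ℂ[X]) : PC p = (aeval (R := ℂ) (Mx ℂ) p).det := rfl

lemma map_Mx : (mapRingHom (Int.castRingHom ℂ)).mapMatrix (Mx ℤ) = Mx ℂ := by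
  ext i j : 1
  fin_cases i <;> fin_cases j <;> simp [Mx]

lemma toC_PP (Q : ℤ[X]) : toC (PP Q) = PC (toC Q) := by
  rw [PC_apply, PP]
  have h1 : toC (aeval (Mx ℤ) Q).det = (mapRingHom (Int.castRingHom ℂ)) (aeval (Mx ℤ) Q).det := rfl
  rw [h1, RingHom.map_det]
  congr 1
  rw [aeval_def, hom_eval₂, map_Mx, aeval_def, toC, eval₂_map]
  congr 1
  exact RingHom.ext_int _ _

lemma PC_X_sub_C (a : ℂ) :
    PC (X - C a) = C (a + 2) * X - C (a ^ 3 - a ^ 2 - 6 * a - 2) := by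
  rw [PC_apply, map_sub, aeval_X, aeval_C, Matrix.det_fin_three]
  simp only [Matrix.sub_apply, Matrix.algebraMap_matrix_apply, Mx]
  have h6 : (C 6 : ℂ[X]) = 6 := map_ofNat C 6
  have h2 : (C 2 : ℂ[X]) = 2 := map_ofNat C 2
  simp
  rw [h6, h2]
  ring

lemma PC_C (c : ℂ) : PC (C c) = C (c ^ 3) := by
  rw [PC_apply, aeval_C, Matrix.det_fin_three]
  simp only [Matrix.algebraMap_matrix_apply]
  simp
  ring

lemma PC_eq (p : ℂ[X]) : PC p = C (p.leadingCoeff ^ 3) *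
    (p.roots.map fun a => C (a + 2) * X - C (a ^ 3 - a ^ 2 - 6 * a - 2)).prod := by
  conv_lhs => rw [(IsAlgClosed.splits p).eq_prod_roots]
  rw [map_mul, PC_C, map_multiset_prod, Multiset.map_map]
  congr 2
  refine Multiset.map_congr rfl fun a _ => ?_
  exact PC_X_sub_C a

lemma PC_eval_root {p : ℂ[X]} (hp : p ≠ 0) {a : ℂ} (ha : p.eval a = 0) (ha2 : a + 2 ≠ 0) :
    (PC p).eval (xv a) = 0 := by
  rw [PC_eq, eval_mul, eval_multiset_prod, Multiset.map_map]
  have : (0 : ℂ) ∈ p.roots.map ((fun q : ℂ[X] => q.eval (xv a)) ∘ fun a =>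
      C (a + 2) * X - C (a ^ 3 - a ^ 2 - 6 * a - 2)) := by
    rw [Multiset.mem_map]
    refine ⟨a, (mem_roots hp).2 ha, ?_⟩
    simp only [Function.comp, eval_sub, eval_mul, eval_C, eval_X]
    rw [xv]
    field_simp
    ring
  rw [Multiset.prod_eq_zero this, mul_zero]

lemma PC_natDegree {p : ℂ[X]} (hp : p ≠ 0) (h : ∀ a, p.eval a = 0 → a + 2 ≠ 0) :
    (PC p).natDegree = p.natDegree := by
  have hlin : ∀ a : ℂ, a + 2 ≠ 0 →
      (C (a + 2) * X - C (a ^ 3 - a ^ 2 - 6 * a - 2) : ℂ[X]).natDegree = 1 := by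
    intro a ha
    rw [sub_eq_add_neg, ← C_neg]
    exact natDegree_linear ha
  rw [PC_eq, natDegree_C_mul (pow_ne_zero _ (leadingCoeff_ne_zero.2 hp)),
    natDegree_multiset_prod, Multiset.map_map]
  · have : p.roots.map (natDegree ∘ fun a => C (a + 2) * X - C (a ^ 3 - a ^ 2 - 6 * a - 2)) =
        p.roots.map fun _ => 1 := by
      refine Multiset.map_congr rfl fun a ha => ?_
      exact hlin a (h a ((mem_roots hp).1 ha))
    rw [this, Multiset.map_const', Multiset.sum_replicate, smul_eq_mul, mul_one]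
    exact (IsAlgClosed.splits p).natDegree_eq_card_roots.symm
  · rw [Multiset.mem_map]
    rintro ⟨a, ha, h0⟩
    have := hlin a (h a ((mem_roots hp).1 ha))
    rw [h0, natDegree_zero] at this
    omega

/-! ### Majorants -/

/-- coefficientwise majorisation -/
def Maj (P : ℤ[X]) (R : ℝ[X]) : Prop := ∀ i, |((P.coeff i : ℤ) : ℝ)| ≤ R.coeff i

lemma Maj.nonneg {P : ℤ[X]} {R : ℝ[X]} (h : Maj P R) (i : ℕ) : 0 ≤ R.coeff i :=
  (abs_nonneg _).trans (h i)

lemma Maj.add {P P' : ℤ[X]} {R R' : ℝ[X]} (h : Maj P R) (h' : Maj P' R') :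
    Maj (P + P') (R + R') := by
  intro i
  rw [coeff_add, coeff_add, Int.cast_add]
  exact (abs_add_le _ _).trans (add_le_add (h i) (h' i))

lemma Maj.neg {P : ℤ[X]} {R : ℝ[X]} (h : Maj P R) : Maj (-P) R := by
  intro i
  rw [coeff_neg, Int.cast_neg, abs_neg]
  exact h i

lemma Maj.sub {P P' : ℤ[X]} {R R' : ℝ[X]} (h : Maj P R) (h' : Maj P' R') :
    Maj (P - P') (R + R') := by
  rw [sub_eq_add_neg]
  exact h.add h'.neg

lemma Maj.mul {P P' : ℤ[X]} {R R' : ℝ[X]} (h : Maj P R) (h' : Maj P' R') :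
    Maj (P * P') (R * R') := by
  intro i
  rw [coeff_mul, coeff_mul, Int.cast_sum]
  refine (Finset.abs_sum_le_sum_abs _ _).trans (Finset.sum_le_sum fun x _ => ?_)
  rw [Int.cast_mul, abs_mul]
  exact mul_le_mul (h _) (h' _) (abs_nonneg _) (h.nonneg _)

lemma Maj.sum {ι : Type*} (s : Finset ι) (P : ι → ℤ[X]) (R : ι → ℝ[X])
    (h : ∀ i ∈ s, Maj (P i) (R i)) : Maj (∑ i ∈ s, P i) (∑ i ∈ s, R i) := by
  classical
  induction s using Finset.induction_on with
  | empty => intro i; simp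
  | insert a s ha ih =>
    rw [Finset.sum_insert ha, Finset.sum_insert ha]
    exact (h a (Finset.mem_insert_self a s)).add
      (ih fun i hi => h i (Finset.mem_insert_of_mem hi))

/-- coefficientwise absolute value -/
noncomputable def absP (P : ℤ[X]) : ℝ[X] := ∑ i ∈ P.support, monomial i |((P.coeff i : ℤ) : ℝ)|

lemma maj_absP (P : ℤ[X]) : Maj P (absP P) := by
  classical
  intro i
  rw [absP, finsetSum_coeff]
  simp only [coeff_monomial]
  rw [Finset.sum_ite_eq' P.support i]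
  split_ifs with h
  · exact le_rfl
  · rw [notMem_support_iff.1 h]; simp

lemma maj_C {c : ℤ} {h : ℝ} (hc : |(c : ℝ)| ≤ h) : Maj (C c) (C h) := by
  intro i
  rw [coeff_C, coeff_C]
  split_ifs
  · exact hc
  · simp

/-- **Height bound.** -/
theorem height_PP (n : ℕ) : ∃ K5 : ℝ, 0 < K5 ∧ ∀ (Q : ℤ[X]) (h : ℝ), Q.natDegree ≤ n →
    (∀ i, |((Q.coeff i : ℤ) : ℝ)| ≤ h) → ∀ i, |(((PP Q).coeff i : ℤ) : ℝ)| ≤ K5 * h ^ 3 := by
  let E : Fin 3 → Fin 3 → ℝ[X] := fun r c =>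
    ∑ i ∈ Finset.range (n + 1), absP ((Mx ℤ ^ i) r c)
  let S : ℝ[X] := E 0 0 * E 1 1 * E 2 2 + E 0 0 * E 1 2 * E 2 1 + E 0 1 * E 1 0 * E 2 2 +
    E 0 1 * E 1 2 * E 2 0 + E 0 2 * E 1 0 * E 2 1 + E 0 2 * E 1 1 * E 2 0
  refine ⟨1 + ∑ i ∈ S.support, |S.coeff i|, by positivity, ?_⟩
  intro Q h hQ hh i
  have hh0 : 0 ≤ h := (abs_nonneg _).trans (hh 0)
  have hentry : ∀ r c, Maj ((aeval (Mx ℤ) Q) r c) (C h * E r c) := by
    intro r c
    have h1 : (aeval (Mx ℤ) Q) r c =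
        ∑ i ∈ Finset.range (n + 1), C (Q.coeff i) * (Mx ℤ ^ i) r c := by
      rw [aeval_eq_sum_range' (Nat.lt_succ_of_le hQ), Matrix.sum_apply]
      refine Finset.sum_congr rfl fun i _ => ?_
      rw [Matrix.smul_apply, zsmul_eq_mul]
      congr 1
    rw [h1]
    have h2 : C h * E r c = ∑ i ∈ Finset.range (n + 1), C h * absP ((Mx ℤ ^ i) r c) := by
      rw [Finset.mul_sum]
    rw [h2]
    exact Maj.sum _ _ _ fun i _ => (maj_C (hh i)).mul (maj_absP _)
  have hdet : Maj (PP Q) (C (h ^ 3) * S) := by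
    have h1 : C (h ^ 3) * S =
        C h * E 0 0 * (C h * E 1 1) * (C h * E 2 2) + C h * E 0 0 * (C h * E 1 2) * (C h * E 2 1) +
        C h * E 0 1 * (C h * E 1 0) * (C h * E 2 2) + C h * E 0 1 * (C h * E 1 2) * (C h * E 2 0) +
        C h * E 0 2 * (C h * E 1 0) * (C h * E 2 1) +
        C h * E 0 2 * (C h * E 1 1) * (C h * E 2 0) := by
      simp only [S, C_pow]
      ring
    rw [h1, PP, Matrix.det_fin_three]
    exact (((((((hentry 0 0).mul (hentry 1 1)).mul (hentry 2 2)).sub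
      (((hentry 0 0).mul (hentry 1 2)).mul (hentry 2 1))).sub
      (((hentry 0 1).mul (hentry 1 0)).mul (hentry 2 2))).add
      (((hentry 0 1).mul (hentry 1 2)).mul (hentry 2 0))).add
      (((hentry 0 2).mul (hentry 1 0)).mul (hentry 2 1))).sub
      (((hentry 0 2).mul (hentry 1 1)).mul (hentry 2 0))
  have h3 := hdet i
  rw [coeff_C_mul] at h3
  have h4 : S.coeff i ≤ 1 + ∑ i ∈ S.support, |S.coeff i| := by
    have h5 : 0 ≤ ∑ i ∈ S.support, |S.coeff i| := Finset.sum_nonneg fun i _ => abs_nonneg _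
    by_cases hi : i ∈ S.support
    · have h6 : |S.coeff i| ≤ ∑ i ∈ S.support, |S.coeff i| :=
        Finset.single_le_sum (f := fun i => |S.coeff i|) (fun i _ => abs_nonneg _) hi
      have := le_abs_self (S.coeff i)
      linarith
    · rw [notMem_support_iff.1 hi]
      linarith
  have h7 : 0 ≤ h ^ 3 := by positivity
  calc |(((PP Q).coeff i : ℤ) : ℝ)| ≤ h ^ 3 * S.coeff i := h3
    _ ≤ h ^ 3 * (1 + ∑ i ∈ S.support, |S.coeff i|) := mul_le_mul_of_nonneg_left h4 h7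
    _ = _ := by ring

end Cusp

end Pool.Agent.Lib.MP_625f41_nt
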