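import Pool.Agent.Lib.MP_625f41_nt.CuspJ

/-!
# Irreducibility of the norm polynomial and conclusion
-/

open Polynomial Filter Topology

namespace Pool.Agent.Lib.MP_625f41_nt

namespace Cusp

lemma toC_eq_mapQ (p : ℤ[X]) :
    toC p = (p.map (Int.castRingHom ℚ)).map (algebraMap ℚ ℂ) := by
  rw [toC, Polynomial.map_map]
  congr 1

lemma natDegree_toC (p : ℤ[X]) : (toC p).natDegree = p.natDegree :=
  natDegree_map_eq_of_injective (RingHom.injective_int _) _

lemma nodup_of_irreducible {p : ℤ[X]} (h : Irreducible (p.map (Int.castRingHom ℚ))) :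
    (toC p).roots.Nodup := by
  rw [toC_eq_mapQ]
  exact nodup_roots (h.separable.map)

/-- a polynomial over `ℚ` vanishing at one root of an irreducible one vanishes at all roots -/
lemma vanish_all {q F : ℚ[X]} (hq : Irreducible q) {z w : ℂ} (hz : aeval z q = 0)
    (hw : aeval w q = 0) (hF : aeval z F = 0) : aeval w F = 0 := by
  have h1 : q ∣ F := by
    have h2 : minpoly ℚ z ∣ q := minpoly.dvd ℚ z hz
    have hint : IsIntegral ℚ z := by
      refine IsAlgebraic.isIntegral ⟨q, hq.ne_zero, hz⟩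
    have h3 := (minpoly.irreducible hint).associated_of_dvd hq h2
    exact h3.symm.dvd.trans (minpoly.dvd ℚ z hF)
  obtain ⟨G, rfl⟩ := h1
  rw [map_mul, hw, zero_mul]

/-- **Irreducibility of the norm polynomial.** -/
theorem irreducible_PP {Q : ℤ[X]} (hQ : Irreducible (Q.map (Int.castRingHom ℚ)))
    (hpole : (toC Q).eval (-2) ≠ 0)
    (hinj : ∀ z w : ℂ, (toC Q).eval z = 0 → (toC Q).eval w = 0 → xv z = xv w → z = w) :
    Irreducible ((PP Q).map (Int.castRingHom ℚ)) ∧ (PP Q).natDegree = Q.natDegree := by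
  classical
  have hQ0 : Q ≠ 0 := by
    rintro rfl
    simp at hQ
  have htoC0 : toC Q ≠ 0 := by
    rw [toC, Ne, Polynomial.map_eq_zero_iff (RingHom.injective_int _)]
    exact hQ0
  have hpole' : ∀ a, (toC Q).eval a = 0 → a + 2 ≠ 0 := by
    intro a ha h
    have : a = -2 := by linear_combination h
    rw [this] at ha
    exact hpole ha
  have hdeg : (PP Q).natDegree = Q.natDegree := by
    rw [← natDegree_toC (PP Q), toC_PP, PC_natDegree htoC0 hpole', natDegree_toC]
  refine ⟨?_, hdeg⟩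
  have hQdeg : 0 < Q.natDegree := by
    have h1 := hQ.natDegree_pos
    rwa [natDegree_map_eq_of_injective (RingHom.injective_int _)] at h1
  obtain ⟨z1, hz1⟩ := IsAlgClosed.exists_root (toC Q) (by
    intro h
    have h' : (toC Q).natDegree = 0 := natDegree_eq_of_degree_eq_some h
    rw [natDegree_toC] at h'
    omega)
  have hz1' : (toC Q).eval z1 = 0 := hz1
  have hPProot : ∀ z, (toC Q).eval z = 0 → (toC (PP Q)).eval (xv z) = 0 := by
    intro z hz
    rw [toC_PP]
    exact PC_eval_root htoC0 hz (hpole' z hz)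
  have hPP0 : PP Q ≠ 0 := by
    intro h
    rw [h, natDegree_zero] at hdeg
    omega
  have aev : ∀ (p : ℤ[X]) (z : ℂ), aeval z (p.map (Int.castRingHom ℚ)) = (toC p).eval z := by
    intro p z
    rw [toC_eq_mapQ, eval_map, aeval_def]
  set x1 := xv z1 with hx1
  set p := (PP Q).map (Int.castRingHom ℚ) with hp
  have hp0 : p ≠ 0 := by
    rw [hp, Ne, Polynomial.map_eq_zero_iff (RingHom.injective_int _)]
    exact hPP0
  have hpx : aeval x1 p = 0 := by
    rw [hp, aev]
    exact hPProot z1 hz1'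
  have hint : IsIntegral ℚ x1 := IsAlgebraic.isIntegral ⟨p, hp0, hpx⟩
  set μ := minpoly ℚ x1 with hμ
  have hμdvd : μ ∣ p := minpoly.dvd ℚ x1 hpx
  -- μ vanishes at all xv z
  have hμall : ∀ z, (toC Q).eval z = 0 → aeval (xv z) μ = 0 := by
    intro z hz
    have key : ∀ w, (toC Q).eval w = 0 →
        aeval w (hom μ.natDegree μ) = (w + 2) ^ μ.natDegree * aeval (xv w) μ := by
      intro w hw
      have h1 : aeval w (hom μ.natDegree μ) =
          (hom μ.natDegree (μ.map (algebraMap ℚ ℂ))).eval w := by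
        rw [← map_hom, eval_map, aeval_def]
      rw [h1, eval_hom (natDegree_map_le) (xv_spec (hpole' w hw)), eval_V, eval_map, aeval_def]
    have h2 : aeval z1 (hom μ.natDegree μ) = 0 := by
      rw [key z1 hz1', hμ, minpoly.aeval, mul_zero]
    have h3 := vanish_all hQ (by rw [aev]; exact hz1') (by rw [aev]; exact hz) h2
    rw [key z hz] at h3
    exact (mul_eq_zero.1 h3).resolve_left (pow_ne_zero _ (hpole' z hz))
  -- counting
  have hcount : Q.natDegree ≤ μ.natDegree := by
    have hnd := nodup_of_irreducible hQ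
    have hμ0 : μ.map (algebraMap ℚ ℂ) ≠ 0 := by
      rw [Ne, Polynomial.map_eq_zero_iff (algebraMap ℚ ℂ).injective]
      exact minpoly.ne_zero hint
    have hsub : (toC Q).roots.toFinset.image xv ⊆ (μ.map (algebraMap ℚ ℂ)).roots.toFinset := by
      intro y hy
      rw [Finset.mem_image] at hy
      obtain ⟨z, hz, rfl⟩ := hy
      rw [Multiset.mem_toFinset, mem_roots htoC0] at hz
      rw [Multiset.mem_toFinset, mem_roots hμ0, IsRoot.def, eval_map, ← aeval_def]
      exact hμall z hz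
    have hcard1 : ((toC Q).roots.toFinset.image xv).card = Q.natDegree := by
      rw [Finset.card_image_of_injOn, Multiset.toFinset_card_of_nodup hnd, ← natDegree_toC Q]
      · exact (IsAlgClosed.splits _).natDegree_eq_card_roots.symm
      · intro z hz w hw hzw
        rw [Finset.mem_coe, Multiset.mem_toFinset, mem_roots htoC0] at hz hw
        exact hinj z w hz hw hzw
    calc Q.natDegree = ((toC Q).roots.toFinset.image xv).card := hcard1.symm
      _ ≤ (μ.map (algebraMap ℚ ℂ)).roots.toFinset.card := Finset.card_le_card hsub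
      _ ≤ Multiset.card (μ.map (algebraMap ℚ ℂ)).roots := Multiset.toFinset_card_le _
      _ ≤ (μ.map (algebraMap ℚ ℂ)).natDegree := card_roots' _
      _ ≤ μ.natDegree := natDegree_map_le
  obtain ⟨q, hq⟩ := hμdvd
  have hq0 : q ≠ 0 := by
    rintro rfl
    rw [mul_zero] at hq
    exact hp0 hq
  have hqdeg : q.natDegree = 0 := by
    have h1 : p.natDegree = μ.natDegree + q.natDegree := by
      rw [hq, natDegree_mul (minpoly.ne_zero hint) hq0]
    have h2 : p.natDegree = Q.natDegree := by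
      rw [hp, natDegree_map_eq_of_injective (RingHom.injective_int _), hdeg]
    omega
  obtain ⟨c, hc⟩ := natDegree_eq_zero.1 hqdeg
  have hc0 : c ≠ 0 := by
    rintro rfl
    apply hq0
    rw [← hc, C_0]
  have hunit : IsUnit q := by
    rw [← hc, isUnit_C, isUnit_iff_ne_zero]
    exact hc0
  rw [hq]
  exact (irreducible_mul_isUnit hunit).2 (minpoly.irreducible hint)

/-- The main result in terms of `N = n - 2`. -/
theorem main (N : ℕ) : ((((2 * ((N + 2 : ℕ) : ℝ) - 1) / 3 : ℝ)) : EReal) ≤ eStar (N + 2) := by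
  obtain ⟨d⟩ := exists_data N
  obtain ⟨ρ, K, hρ, hK, htwo⟩ := two_point d
  obtain ⟨c, K2, hK2, hirr⟩ := irreducible_Q d
  obtain ⟨K5, hK5, hheight⟩ := height_PP (N + 2)
  have hK4 := K4_pos d
  set κ : ℝ := K5 * d.K4 ^ 3 with hκ
  have hκpos : 0 < κ := by positivity
  set ex : ℝ := (2 * ((N + 2 : ℕ) : ℝ) - 1) / 3 with hex
  have hex3 : 3 * ex = ((2 * N + 3 : ℕ) : ℝ) := by
    rw [hex]; push_cast; ring
  have hexpos : 0 < ex := by
    have : (0 : ℝ) < ((2 * N + 3 : ℕ) : ℝ) := by positivity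
    linarith
  set K7 : ℝ := (K * K2 ^ (2 * (N + 1)) * (2 * K2)) * (κ + 1) ^ ex with hK7
  unfold eStar
  refine le_sepExponent (fun P hP => hP.1) (by omega) ex K7 ?_
  intro N0
  -- choose a large index
  have htend : Tendsto (fun i : ℕ => 2 * i + c) atTop atTop := by
    refine tendsto_atTop_mono (fun i => ?_) tendsto_id
    simp only [id]
    omega
  have hbig : ∀ᶠ i : ℕ in atTop, (N0 : ℝ) / κ ≤ e (2 * i + c) :=
    (tendsto_e.comp htend).eventually_ge_atTop _
  obtain ⟨i, ⟨hQirr, hQdeg, hpole, z, hz, him, hzρ, hzr⟩, hi2⟩ :=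
    ((hirr ρ hρ).and_eventually hbig).exists
  set j := 2 * i + c with hj
  set E := e j with hE
  have hE1 : 1 ≤ E := one_le_e j
  have hEpos : 0 < E := e_pos j
  have hpole' : ∀ a, (toC (d.Q j)).eval a = 0 → a + 2 ≠ 0 := by
    intro a ha h
    have : a = -2 := by linear_combination h
    rw [this] at ha
    exact hpole ha
  have hinj : ∀ z w : ℂ, (toC (d.Q j)).eval z = 0 → (toC (d.Q j)).eval w = 0 → xv z = xv w →
      z = w := fun z w hz hw h => xv_injOn d (hpole' z hz) (hpole' w hw) hz hw h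
  obtain ⟨hPirr, hPdeg⟩ := irreducible_PP hQirr hpole hinj
  have hE3 : 1 ≤ E ^ 3 := one_le_pow₀ hE1
  refine ⟨⌈κ * E ^ 3⌉₊, ?_, PP (d.Q j), hPdeg.trans hQdeg, ?_, ?_, ?_⟩
  · -- H is large
    have h1 : (N0 : ℝ) ≤ κ * E ^ 3 := by
      rw [div_le_iff₀ hκpos] at hi2
      have h2 : E ≤ E ^ 3 := le_self_pow₀ hE1 (by norm_num)
      calc (N0 : ℝ) ≤ E * κ := hi2
        _ ≤ E ^ 3 * κ := by gcongr
        _ = κ * E ^ 3 := by ring
    exact_mod_cast h1.trans (Nat.le_ceil _)
  · -- height
    rw [height_le_iff]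
    intro k
    have h1 := hheight (d.Q j) (d.K4 * E) hQdeg.le (coeff_Q_le d j) k
    have h2 : (((PP (d.Q j)).coeff k).natAbs : ℝ) ≤ κ * E ^ 3 := by
      rw [Nat.cast_natAbs, Int.cast_abs]
      refine h1.trans (le_of_eq ?_)
      rw [hκ]; ring
    exact_mod_cast h2.trans (Nat.le_ceil _)
  · exact ⟨nodup_of_irreducible hPirr, hPirr⟩
  · -- separation
    set w := (starRingEnd ℂ) z with hw
    have hwroot : (toC (d.Q j)).eval w = 0 := conj_root hz
    have hzw : z ≠ w := by
      intro h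
      apply him
      have := congrArg Complex.im h
      rw [hw, Complex.conj_im] at this
      linarith
    have hwσ : ‖w - σ‖ = ‖z - σ‖ := by
      have : w - σ = (starRingEnd ℂ) (z - σ) := by
        rw [map_sub, Complex.conj_ofReal]
      rw [this, RCLike.norm_conj]
    obtain ⟨hz2, hw2, hest⟩ := htwo j z w hzρ (by rw [hwσ]; exact hzρ) hz hwroot
    have hxne : xv z ≠ xv w := fun h => hzw (hinj z w hz hwroot h)
    have hroot : ∀ t, (toC (d.Q j)).eval t = 0 → aeval (xv t) (PP (d.Q j)) = 0 := by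
      intro t ht
      have h0 : toC (d.Q j) ≠ 0 := by
        intro h
        rw [h, eval_zero] at hpole
        exact hpole rfl
      have h1 := PC_eval_root h0 ht (hpole' t ht)
      rw [← toC_PP, toC, eval_map] at h1
      rw [aeval_def]
      exact h1
    have hsep := sep_le_dist hxne (hroot z hz) (hroot w hwroot)
    have hwz : ‖w - z‖ ≤ 2 * K2 / E := by
      have : w - z = (w - σ) - (z - σ) := by ring
      rw [this]
      refine (norm_sub_le _ _).trans ?_
      rw [hwσ]
      have : 2 * K2 / E = K2 / E + K2 / E := by ring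
      rw [this]
      exact add_le_add hzr hzr
    have hd1 : dist (xv z) (xv w) ≤ (K * K2 ^ (2 * (N + 1)) * (2 * K2)) * (E ^ (2 * N + 3))⁻¹ := by
      rw [dist_comm, dist_eq_norm]
      calc ‖xv w - xv z‖ ≤ K * ‖z - σ‖ ^ (2 * (N + 1)) * ‖w - z‖ := hest
        _ ≤ K * (K2 / E) ^ (2 * (N + 1)) * (2 * K2 / E) := by gcongr
        _ = _ := by
            rw [div_pow, show 2 * N + 3 = 2 * (N + 1) + 1 by ring, pow_succ E]
            field_simp
    refine hsep.trans (hd1.trans ?_)
    rw [hK7, mul_assoc (K * K2 ^ (2 * (N + 1)) * (2 * K2))]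
    refine mul_le_mul_of_nonneg_left ?_ (by positivity)
    -- E^-(2N+3) ≤ (κ+1)^ex * H^(-ex)
    set H := ⌈κ * E ^ 3⌉₊ with hH
    have hHpos : (0 : ℝ) < (H : ℝ) := by
      have : 0 < κ * E ^ 3 := by positivity
      exact_mod_cast Nat.ceil_pos.2 this
    have hHle : (H : ℝ) ≤ (κ + 1) * E ^ 3 := by
      have h1 : (H : ℝ) ≤ κ * E ^ 3 + 1 := (Nat.ceil_lt_add_one (by positivity)).le
      linarith
    have h2 : (H : ℝ) ^ ex ≤ (κ + 1) ^ ex * E ^ (2 * N + 3) := by
      calc (H : ℝ) ^ ex ≤ ((κ + 1) * E ^ 3) ^ ex := by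
            exact Real.rpow_le_rpow hHpos.le hHle hexpos.le
        _ = (κ + 1) ^ ex * (E ^ 3) ^ ex := by
            rw [Real.mul_rpow (by positivity) (by positivity)]
        _ = (κ + 1) ^ ex * E ^ (2 * N + 3) := by
            congr 1
            rw [← Real.rpow_natCast E 3, ← Real.rpow_mul hEpos.le, ← Real.rpow_natCast E (2 * N + 3),
              ← hex3]
            norm_num
    rw [Real.rpow_neg hHpos.le]
    have h3 : 0 < (H : ℝ) ^ ex := Real.rpow_pos_of_pos hHpos _
    rw [← div_eq_mul_inv, le_div_iff₀ h3, inv_mul_le_iff₀ (by positivity)]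
    linarith

end Cusp

/-- `e^*(n) ≥ (2 n - 1) / 3` for all `n ≥ 2`. -/
theorem eStar_ge (n : ℕ) (hn : 2 ≤ n) : (((2 * (n : ℝ) - 1) / 3 : ℝ) : EReal) ≤ eStar n := by
  obtain ⟨N, rfl⟩ : ∃ N, n = N + 2 := ⟨n - 2, by omega⟩
  exact Cusp.main N

end Pool.Agent.Lib.MP_625f41_nt
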