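import Mathlib

/-!
# Root separation exponents of integer polynomials: definitions

The definitions follow the problem statement of MP_625f41_nt word by word.
-/

open Polynomial Filter

namespace Pool.Agent.Lib.MP_625f41_nt

/-- The naive height `H(P)`: the largest absolute value of a coefficient of `P`. -/
def height (P : ℤ[X]) : ℕ := P.support.sup fun i => (P.coeff i).natAbs

/-- `P` is separable: its complex roots (with multiplicity) are pairwise distinct. -/
def HasDistinctRoots (P : ℤ[X]) : Prop := (P.map (Int.castRingHom ℂ)).roots.Nodup

/-- `P` is irreducible over `ℚ`. -/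
def IrreducibleOverRat (P : ℤ[X]) : Prop := Irreducible (P.map (Int.castRingHom ℚ))

/-- The root separation `sep(P)`: the least distance between two distinct complex roots
of `P`. -/
noncomputable def sep (P : ℤ[X]) : ℝ :=
  sInf {d : ℝ | ∃ α β : ℂ, α ≠ β ∧ aeval α P = 0 ∧ aeval β P = 0 ∧ d = dist α β}

/-- The least root separation of a polynomial of degree exactly `n` and height at most `H` in the
class `𝒞`. -/
noncomputable def minSep (𝒞 : ℤ[X] → Prop) (n H : ℕ) : ℝ :=
  sInf {d : ℝ | ∃ P : ℤ[X], P.natDegree = n ∧ height P ≤ H ∧ 𝒞 P ∧ d = sep P}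

/-- `limsup_{H → ∞} (- log L(n, H)) / log H`, where `L(n, H)` is the least root separation in
the class `𝒞`; the limit superior is taken in the extended real numbers. -/
noncomputable def sepExponent (𝒞 : ℤ[X] → Prop) (n : ℕ) : EReal :=
  limsup (fun H : ℕ => ((-Real.log (minSep 𝒞 n H) / Real.log H : ℝ) : EReal)) atTop

/-- `e(n)`: all separable integer polynomials. -/
noncomputable def e (n : ℕ) : EReal := sepExponent HasDistinctRoots n

/-- `e^*(n)`: separable integer polynomials that are irreducible over `ℚ`. -/
noncomputable def eStar (n : ℕ) : EReal :=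
  sepExponent (fun P => HasDistinctRoots P ∧ IrreducibleOverRat P) n

/-- `e_0(n)`: separable monic integer polynomials. -/
noncomputable def eMonic (n : ℕ) : EReal :=
  sepExponent (fun P => HasDistinctRoots P ∧ P.Monic) n

/-- `e_0^*(n)`: separable monic integer polynomials that are irreducible over `ℚ`. -/
noncomputable def eMonicStar (n : ℕ) : EReal :=
  sepExponent (fun P => HasDistinctRoots P ∧ P.Monic ∧ IrreducibleOverRat P) n

end Pool.Agent.Lib.MP_625f41_nt
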